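import Pool.Agent.H246K3.Stubs

/-!
# Lattice knots: the definitions used in the statements
-/

set_option autoImplicit false

namespace KNB

open KN

/-- `l` is a connected sum of `k` and `ks 0, ..., ks (N - 1)` (oriented knot types): in the last
step a polygon `l1 ++ .zp :: l2`, which is such a sum with `N - 1` summands, and a polygon
`.zm :: v` of type `ks (N - 1)` face each other and are joined -/
def SumQ (k : List V) (ks : ℕ → List V) : ℕ → List V → Prop
  | 0 => fun l => Same l k
  | N + 1 => fun l => ∃ l1 v l2 : List Dir, Facing l1 v l2 ∧ SumQ k ks N (vl (l1 ++ .zp :: l2)) ∧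
      Same (vl (.zm :: v)) (ks N) ∧ Same l (vl (join l1 v l2))

/-- the fundamental group of the complement of the polygon `l` has a homomorphism to a finite group
with non-commutative image -/
def FQ (l : List V) : Prop := ∃ (x : Cmp l) (G : Type) (_ : Group G) (_ : Finite G)
  (f : FundamentalGroup (Cmp l) x →* G) (a b : FundamentalGroup (Cmp l) x),
  f a * f b ≠ f b * f a

end KNB
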