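import Pool.Agent.L5helper86.KB.Defs

/-!
# Lattice knots: counting polygons with several local knots, adapted from `Pool/Agent/H246K3`
-/

set_option autoImplicit false

namespace KNB

open Finset Filter Topology KN
open scoped Classical

noncomputable section

open K3YFLIP (EZ_append EZ_lt EZ_bl pos_blk rmD_of) in
/-- flips -/
theorem flip {k : List V} (T L K : ℕ) (v : ℕ → List Dir) (hv : SmB L K v) (A B : List Sz)
    (a b : Dir) (hV : VaQ k T L v (A ++ .lt a :: .lt b :: B)) (hab : perp a b)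
    (hP : pos (EZ T v B) + vec a ∉ path (EZ T v (A ++ .lt a :: .lt b :: B)))
    (hfar : faZ T v (T + L + 5) (A ++ .lt a :: .lt b :: B) (pos (EZ T v B))) :
    VaQ k T L v (A ++ .lt b :: .lt a :: B) := by
  have h1 := e_bas
  have h3 := T_flip_proof
  have eW : EZ T v (A ++ .lt a :: .lt b :: B) = EZ T v A ++ a :: b :: EZ T v B := by
    rw [EZ_append, EZ_lt, EZ_lt]
  have eW' : EZ T v (A ++ .lt b :: .lt a :: B) = EZ T v A ++ b :: a :: EZ T v B := by
    rw [EZ_append, EZ_lt, EZ_lt]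
  have eB : BZ (A ++ .lt a :: .lt b :: B) = BZ A ++ a :: b :: BZ B := by
    unfold BZ; simp [szl]
  have eB' : BZ (A ++ .lt b :: .lt a :: B) = BZ A ++ b :: a :: BZ B := by
    unfold BZ; simp [szl]
  have hpB : pos (EZ T v B) = pos (BZ B) := (h1 T L K v hv B).1
  have hsubW := (h1 T L K v hv (A ++ .lt a :: .lt b :: B)).2.1
  -- base
  obtain ⟨b1, b2, _⟩ := h3 (BZ A) (BZ B) a b hab (by rw [← eB]; exact hV.base)
    (by
      rw [← hpB, ← eB]
      exact fun h => hP (hsubW _ h))
  rw [← eB, ← eB'] at b2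
  obtain ⟨x1, _, _⟩ := h3 (EZ T v A) (EZ T v B) a b hab (by rw [← eW]; exact hV.ext)
    (by rw [← eW]; exact hP)
  refine ⟨?_, ?_, ?_, ?_⟩
  · exact b2.symm.trans hV.u
  · rw [eB']; exact b1
  · rw [eW']; exact x1
  · intro A1 B1 i d f hW
    rcases List.append_eq_append_iff.1 hW with ⟨C, hC1, hC2⟩ | ⟨C, hC1, hC2⟩
    · -- A1 = A ++ C, lt b :: lt a :: B = C ++ bl d f :: B1 : the block lies in B
      obtain ⟨B2, rfl⟩ : ∃ B2, C = .lt b :: .lt a :: B2 := by
        rcases C with _ | ⟨c1, C⟩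
        · simp at hC2
        · rcases C with _ | ⟨c2, C⟩
          · simp at hC2
          · simp only [List.cons_append, List.cons.injEq] at hC2
            exact ⟨C, by rw [hC2.1, hC2.2.1]⟩
      simp only [List.cons_append, List.cons.injEq, true_and] at hC2
      subst hC1
      subst hC2
      have hW0 : A ++ .lt a :: .lt b :: (B2 ++ .bl i d f :: B1) =
          (A ++ .lt a :: .lt b :: B2) ++ .bl i d f :: B1 := by simp
      rw [hW0] at hV hfar hP
      obtain ⟨hperp, hR⟩ := hV.room _ _ i d f rfl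
      refine ⟨hperp, ?_⟩
      obtain ⟨r1, r2⟩ := rep T L K v hv _ _ i d f hV
      have e0 : EZ T v (A ++ .lt a :: .lt b :: B2) ++ f :: EZ T v B1 =
          EZ T v A ++ a :: b :: (EZ T v B2 ++ f :: EZ T v B1) := by
        rw [EZ_append, EZ_lt, EZ_lt]; simp
      have e0' : EZ T v (A ++ .lt b :: .lt a :: B2) ++ f :: EZ T v B1 =
          EZ T v A ++ b :: a :: (EZ T v B2 ++ f :: EZ T v B1) := by
        rw [EZ_append, EZ_lt, EZ_lt]; simp
      have ep : pos (EZ T v B2 ++ f :: EZ T v B1) = pos (EZ T v (B2 ++ .bl i d f :: B1)) := by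
        rw [EZ_append, EZ_bl, pos_append, pos_append, pos_append, pos_blk h1 T L K v hv, pos]
        abel
      rw [e0'] 
      rw [e0] at hR r1 r2
      have hPn : pos (EZ T v B2 ++ f :: EZ T v B1) + vec a ∉
          path (EZ T v A ++ a :: b :: (EZ T v B2 ++ f :: EZ T v B1)) := by
        rw [ep]
        exact fun h => hP (r1 _ h)
      obtain ⟨_, _, f3⟩ := h3 (EZ T v A) (EZ T v B2 ++ f :: EZ T v B1) a b hab r2 hPn
      refine rmD_of T L d f a hperp _ _ (pos (EZ T v B2 ++ f :: EZ T v B1)) _ f3 hR ?_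
      rw [ep]
      exact hfar _ _ i d f rfl
    · -- A = A1 ++ C, bl d f :: B1 = C ++ lt b :: lt a :: B : the block lies in A
      obtain ⟨A2, rfl⟩ : ∃ A2, C = .bl i d f :: A2 := by
        rcases C with _ | ⟨c1, C⟩
        · simp at hC2
        · simp only [List.cons_append, List.cons.injEq] at hC2
          exact ⟨C, by rw [hC2.1]⟩
      simp only [List.cons_append, List.cons.injEq, true_and] at hC2
      subst hC1
      subst hC2
      have hW0 : (A1 ++ .bl i d f :: A2) ++ .lt a :: .lt b :: B =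
          A1 ++ .bl i d f :: (A2 ++ .lt a :: .lt b :: B) := by simp
      rw [hW0] at hV hfar hP
      obtain ⟨hperp, hR⟩ := hV.room _ _ i d f rfl
      refine ⟨hperp, ?_⟩
      obtain ⟨r1, r2⟩ := rep T L K v hv _ _ i d f hV
      have e0 : EZ T v A1 ++ f :: EZ T v (A2 ++ .lt a :: .lt b :: B) =
          (EZ T v A1 ++ f :: EZ T v A2) ++ a :: b :: EZ T v B := by
        rw [EZ_append, EZ_lt, EZ_lt]; simp
      have e0' : EZ T v A1 ++ f :: EZ T v (A2 ++ .lt b :: .lt a :: B) =
          (EZ T v A1 ++ f :: EZ T v A2) ++ b :: a :: EZ T v B := by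
        rw [EZ_append, EZ_lt, EZ_lt]; simp
      have ep : pos (EZ T v (A2 ++ .lt b :: .lt a :: B)) = pos (EZ T v (A2 ++ .lt a :: .lt b :: B)) := by
        rw [EZ_append, EZ_append, EZ_lt, EZ_lt, EZ_lt, EZ_lt, pos_append, pos_append]
        simp only [pos]
        abel
      rw [e0', ep]
      rw [e0] at hR r1 r2
      have hPn : pos (EZ T v B) + vec a ∉
          path ((EZ T v A1 ++ f :: EZ T v A2) ++ a :: b :: EZ T v B) := fun h => hP (r1 _ h)
      obtain ⟨_, _, f3⟩ := h3 (EZ T v A1 ++ f :: EZ T v A2) (EZ T v B) a b hab r2 hPn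
      refine rmD_of T L d f a hperp _ _ (pos (EZ T v B)) _ f3 hR ?_
      exact hfar _ _ i d f rfl

open K3YINS (map_rt_id EZ_append EZ_bl EZ_lt pos_le blk_le BZ_eq decomp Rp_id room_aux path_rep) in
/-- insertion of a block -/
theorem insB {k : List V} (T L B : ℕ) (v : ℕ → List Dir) (hv : SmB L B v) (A B' : List Sz) (i : ℕ)
    (hval : VaQ k T L v (A ++ .lt .zp :: B')) (hspot : Spot T L (EZ T v A) (EZ T v B'))
    (hfar : faZ T v (raZ T L B - 20) (A ++ .lt .zp :: B') (pos (EZ T v B'))) :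
    VaQ k T L v (A ++ .bl i .xp .zp :: B') := by
  have hbas := e_bas
  have hssap := d_ssap
  have hvi := hv i
  have hpb : pos (blk T (v i)) = vec .zp := by
    have := (hbas T L B v hv [.bl i .xp .zp]).1
    simpa [EZ, szw, BZ, szl, map_rt_id, pos] using this
  have hlen : ((blk T (v i)).length : ℤ) ≤ (B : ℤ) + 2 * T := by
    have := blk_le hv T i
    exact_mod_cast this
  have hEZ : EZ T v (A ++ .bl i .xp .zp :: B') = EZ T v A ++ blk T (v i) ++ EZ T v B' := by
    rw [EZ_append, EZ_bl, map_rt_id, List.append_assoc]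
  have hdrop : ∀ j, |(pos ((blk T (v i)).drop j)).1| ≤ (B : ℤ) + 2 * T ∧
      |(pos ((blk T (v i)).drop j)).2.1| ≤ (B : ℤ) + 2 * T ∧
      |(pos ((blk T (v i)).drop j)).2.2| ≤ (B : ℤ) + 2 * T := by
    intro j
    have h1 := pos_le ((blk T (v i)).drop j)
    have h2 : ((blk T (v i)).drop j).length ≤ (blk T (v i)).length := by simp
    have h3 : (((blk T (v i)).drop j).length : ℤ) ≤ (blk T (v i)).length := by exact_mod_cast h2
    have h4 := h3.trans hlen
    exact ⟨h1.1.trans h4, h1.2.1.trans h4, h1.2.2.trans h4⟩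
  refine ⟨?_, ?_, ?_, ?_⟩
  · rw [BZ_eq]; exact hval.u
  · rw [BZ_eq]; exact hval.base
  · rw [hEZ]; exact hssap T L _ _ (v i) hspot hvi.1
  · intro A1 B1 i1 d f hdec
    rcases decomp A B' A1 B1 _ _ hdec with ⟨rfl, hs, rfl⟩ | ⟨A2, hA, hB1⟩ | ⟨B2, hB, hA1⟩
    · -- the new block
      simp only [Sz.bl.injEq] at hs
      obtain ⟨rfl, rfl, rfl⟩ := hs
      refine ⟨by decide, ?_⟩
      have := hspot.2
      unfold Rm at this
      unfold RmD
      simpa only [Rp_id] using this
    · -- the block is walked after the new one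
      have hW : A ++ .lt .zp :: B' = A1 ++ .bl i1 d f :: (A2 ++ .lt .zp :: B') := by
        rw [hA]; simp
      obtain ⟨hdf, hrm⟩ := hval.room _ _ _ _ _ hW
      have hf := hfar _ _ _ _ _ hW
      have hpos : pos (EZ T v B1) = pos (EZ T v (A2 ++ .lt .zp :: B')) := by
        rw [(hbas T L B v hv B1).1, (hbas T L B v hv _).1, hB1, BZ_eq]
      refine ⟨hdf, ?_⟩
      rw [hpos]
      refine room_aux T L B d f hdf (pos (EZ T v B')) _ _ _ hf hrm ?_
      intro p hp
      have e1 : EZ T v A1 ++ f :: EZ T v B1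
          = (EZ T v A1 ++ f :: EZ T v A2) ++ (blk T (v i) ++ EZ T v B') := by
        rw [hB1, EZ_append, EZ_bl, map_rt_id]; simp
      have e2 : EZ T v A1 ++ f :: EZ T v (A2 ++ .lt .zp :: B')
          = (EZ T v A1 ++ f :: EZ T v A2) ++ .zp :: EZ T v B' := by
        rw [EZ_append, EZ_lt]; simp
      rw [e1] at hp
      rw [e2]
      rcases path_rep _ _ _ _ hpb p hp with h | ⟨j, h⟩
      · exact Or.inl h
      · exact Or.inr ⟨_, h, hdrop j⟩
    · -- the block is walked before the new one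
      have hW : A ++ .lt .zp :: B' = (A ++ .lt .zp :: B2) ++ .bl i1 d f :: B1 := by
        rw [hB]; simp
      obtain ⟨hdf, hrm⟩ := hval.room _ _ _ _ _ hW
      have hf := hfar _ _ _ _ _ hW
      refine ⟨hdf, ?_⟩
      refine room_aux T L B d f hdf (pos (EZ T v B')) _ _ _ hf hrm ?_
      intro p hp
      have e1 : EZ T v A1 ++ f :: EZ T v B1
          = EZ T v A ++ (blk T (v i) ++ (EZ T v B2 ++ f :: EZ T v B1)) := by
        rw [hA1, EZ_append, EZ_bl, map_rt_id]; simp
      have e2 : EZ T v (A ++ .lt .zp :: B2) ++ f :: EZ T v B1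
          = EZ T v A ++ .zp :: (EZ T v B2 ++ f :: EZ T v B1) := by
        rw [EZ_append, EZ_lt]; simp
      have hpos : pos (EZ T v B2 ++ f :: EZ T v B1) = pos (EZ T v B') := by
        have hb := (hbas T L B v hv [.bl i1 d f]).1
        have hb' : pos ((blk T (v i1)).map (rt d f)) = vec f := by
          simpa [EZ, szw, BZ, szl, pos] using hb
        rw [hB, EZ_append, EZ_bl, pos_append, pos_append, pos_append, hb', pos,
          add_comm (pos (EZ T v B1)) (vec f)]
      rw [e1] at hp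
      rw [e2]
      rcases path_rep _ _ _ _ hpb p hp with h | ⟨j, h⟩
      · exact Or.inl h
      · right
        rw [hpos] at h
        exact ⟨_, h, hdrop j⟩

open K3YCON in
/-- a contact far from the blocks gives a place for a new block -/
theorem con {k : List V} (T L Bd R : ℕ) (v : ℕ → List Dir) (hv : SmB L Bd v) (hLL : LLat T L R)
    (W : List Sz) (hW : VaQ k T L v W) (x N : Z3) (hC : Cont R {p | p ∈ path (EZ T v W)} x N)
    (hx : ¬ near 6 x 0) (hfar : faZ T v (raZ T L Bd) W x) (i : ℕ) :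
    ∃ (d f : Dir) (A B' : List Sz), perp d f ∧
    VaQ k T L v (A ++ .bl i .xp .zp :: B') ∧ near 6 (pos (EZ T v B')) (Rp d f x) ∧
    RlZ W d f A B' := by
  have hbas := e_bas
  have hrtc := T_rtc_proof
  have hlook := Y_look_proof
  have hstep := d_step
  obtain ⟨d, f, l1, l2, ⟨hp, hsp, -, halt⟩, hn⟩ := hstep T L R hLL _ hW.ext x N hC hx
  have hperp : ∀ A B i d' f', W = A ++ .bl i d' f' :: B → perp d' f' := fun A B i d' f' h =>
    (hW.room A B i d' f' h).1
  have hW1 := rot hv hW hp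
  have hEX := ((hbas T L Bd v hv W).2.2.2.2 d f hp hperp).1
  have hperp1 : ∀ A B i d' f', W.map (rZ d f) = A ++ .bl i d' f' :: B → perp d' f' :=
    fun A B i d' f' h => (hW1.room A B i d' f' h).1
  -- distances to the blocks
  have hfar1 : faZ T v (raZ T L Bd - 6) (W.map (rZ d f)) (pos l2) := by
    intro A B i d' f' he hne
    obtain ⟨A0, B0', hA0, hA, hB⟩ := List.map_eq_append_iff.1 he
    obtain ⟨s, B0, rfl, hs, hB0⟩ := List.map_eq_cons_iff.1 hB
    cases s with
    | lt e => simp [rZ] at hs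
    | bl i0 d0 f0 =>
      have h1 := hfar A0 B0 i0 d0 f0 hA0
      have h2 : pos (EZ T v B) = Rp d f (pos (EZ T v B0)) := by
        rw [← hB0, ← ((hbas T L Bd v hv B0).2.2.2.2 d f hp (fun A B i d' f' h => hperp
          (A0 ++ .bl i0 d0 f0 :: A) B i d' f' (by rw [hA0, h]; simp))).1]
        exact ((hrtc d f hp).2.2.1 _).1
      rw [h2] at hne
      apply h1
      rw [← near_iff hp]
      have h3 := near_tri (near_symm hn) hne
      have h4 : 6 + (raZ T L Bd - 6) = raZ T L Bd := by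
        unfold raZ
        omega
      rwa [h4] at h3
  have hrad : raZ T L Bd = 4 * (Bd + 3 * T + L + 10) := rfl
  rw [hEX] at halt
  rcases halt with h1 | ⟨m, rfl, h1, h2⟩ | ⟨m, rfl, h1, h2⟩
  · -- alternative 1
    obtain ⟨A, B, hAB, hA, hB⟩ := hlook T L Bd v hv _ l1 l2 .zp h1
      (faZ_mono (by omega) hfar1) hperp1
    refine ⟨d, f, A, B, hp, ?_, ?_, ?_⟩
    · rw [hAB] at hW1 hfar1
      apply insB T L Bd v hv A B i hW1
      · rw [hA, hB]; exact hsp
      · rw [hB]; exact faZ_mono (by omega) hfar1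
    · rw [hB]; exact hn
    · left; exact hAB
  · -- alternative 2
    obtain ⟨A', B, hAB, hA', hB⟩ := hlook T L Bd v hv _ (m ++ [.zp]) l2 .xm (by rw [h1]; simp)
      (faZ_mono (by omega) hfar1) hperp1
    have hfar2 : faZ T v (raZ T L Bd - 7) (W.map (rZ d f)) (pos (Dir.xm :: l2)) := by
      have h3 : faZ T v (raZ T L Bd - 7 + 1) (W.map (rZ d f)) (pos l2) :=
        faZ_mono (by omega) hfar1
      exact faZ_near h3 (near_symm (near_vec _ _))
    obtain ⟨M, B', hMB, hM, hB'⟩ := hlook T L Bd v hv _ m (.xm :: l2) .zp h1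
      (faZ_mono (by omega) hfar2) hperp1
    have h3 := two (hAB.symm.trans hMB) hB hB'
    subst h3
    rw [hMB] at hW1 h2 hfar1
    have hW2 := flip T L Bd v hv M B .zp .xm hW1 (by decide) (by rw [hB]; exact h2)
      (by rw [hB]; exact faZ_mono (by omega) hfar1)
    have e1 : M ++ Sz.lt .xm :: Sz.lt .zp :: B = (M ++ [Sz.lt .xm]) ++ Sz.lt .zp :: B := by simp
    have hfar3 := faZ_flip hfar1
    rw [e1] at hW2 hfar3
    refine ⟨d, f, M ++ [.lt .xm], B, hp, ?_, ?_, ?_⟩
    · apply insB T L Bd v hv _ B i hW2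
      · rw [EZ_append, hM, hB]
        exact hsp
      · rw [hB]; exact faZ_mono (by omega) hfar3
    · rw [hB]; exact hn
    · right; left; exact ⟨M, rfl, hMB⟩
  · -- alternative 3
    have hposm : near 1 (pos (Dir.xp :: m)) (pos m) := near_vec _ _
    have hfar2 : faZ T v (raZ T L Bd - 7) (W.map (rZ d f)) (pos m) := by
      have h3 : faZ T v (raZ T L Bd - 7 + 1) (W.map (rZ d f)) (pos (Dir.xp :: m)) :=
        faZ_mono (by omega) hfar1
      exact faZ_near h3 hposm
    have hfar2' : faZ T v (raZ T L Bd - 7) (W.map (rZ d f)) (pos (Dir.zp :: m)) := by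
      have h3 : faZ T v (raZ T L Bd - 7 + 1) (W.map (rZ d f)) (pos (Dir.xp :: m)) :=
        faZ_mono (by omega) hfar1
      exact faZ_near h3 (near_symm (near_vv _))
    obtain ⟨A, B1, hAB, hA, hB1⟩ := hlook T L Bd v hv _ l1 (.zp :: m) .xp h1
      (faZ_mono (by omega) hfar2') hperp1
    obtain ⟨A2, M, hMB, hA2, hM⟩ := hlook T L Bd v hv _ (l1 ++ [.xp]) m .zp (by rw [h1]; simp)
      (faZ_mono (by omega) hfar2) hperp1
    have h3 := two (hMB.symm.trans hAB) hM hB1
    subst h3
    rw [hAB] at hW1 h2 hfar1 hfar2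
    have hW2 := flip T L Bd v hv A M .xp .zp hW1 (by decide) (by rw [hM]; exact h2)
      (by rw [hM]; exact faZ_mono (by omega) hfar2)
    have hfar3 := faZ_flip hfar1
    refine ⟨d, f, A, .lt .xp :: M, hp, ?_, ?_, ?_⟩
    · apply insB T L Bd v hv A _ i hW2
      · rw [EZ_lt, hA, hM]
        exact hsp
      · rw [EZ_lt, hM]; exact faZ_mono (by omega) hfar3
    · rw [EZ_lt, hM]; exact hn
    · right; right; exact ⟨M, rfl, hAB⟩

open K3YCNT in
/-- the counting -/
theorem count {k : List V} (T L : ℕ) (v : ℕ → List Dir) (N n : ℕ)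
    (C : List Sz → Finset Z3)
    (h : ∀ W ∈ VQ k T L v N n, ∀ x ∈ C W, ∃ (d f : Dir) (A B : List Sz), perp d f ∧
      VaQ k T L v (A ++ .bl N .xp .zp :: B) ∧ near 6 (pos (EZ T v B)) (Rp d f x) ∧
      RlZ W d f A B) :
    ∑ W ∈ VQ k T L v N n, (C W).card ≤
      (VQ k T L v (N + 1) n).card * (6 * (6 * (3 * 13 ^ 3))) := by
  have hrtc := T_rtc_proof
  rw [← Finset.card_sigma]
  have hcard : (VQ k T L v (N + 1) n ×ˢ ((univ : Finset Dir) ×ˢ
      ((univ : Finset Dir) ×ˢ ((univ : Finset (Fin 3)) ×ˢ box 6 0)))).card =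
      (VQ k T L v (N + 1) n).card * (6 * (6 * (3 * 13 ^ 3))) := by
    rw [card_product, card_product, card_product, card_product, card_box,
      card_univ, card_univ]
    have e1 : Fintype.card Dir = 6 := rfl
    have e2 : Fintype.card (Fin 3) = 3 := rfl
    rw [e1, e2]
  rw [← hcard]
  apply Finset.card_le_card_of_forall_subsingleton
    (fun (p : (_ : List Sz) × Z3) (q : List Sz × Dir × Dir × Fin 3 × Z3) =>
      ∃ A B : List Sz, perp q.2.1 q.2.2.1 ∧ q.1 = A ++ .bl N .xp .zp :: B ∧ N ∉ lab A ∧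
        Ra q.2.2.2.1 p.1 q.2.1 q.2.2.1 A B ∧
        q.2.2.2.2 = Rp q.2.1 q.2.2.1 p.2 - pos (EZ T v B))
  · rintro ⟨W, x⟩ hp
    rw [mem_sigma] at hp
    obtain ⟨hW, hx⟩ := hp
    simp only at hW hx
    obtain ⟨d, f, A, B, h1, h2, h3, h4⟩ := h W hW x hx
    obtain ⟨i, hi⟩ := exists_Ra h4
    obtain ⟨k1, k2⟩ := Ra_lab hi
    rw [mem_VQ] at hW
    have hN : N ∉ lab A ++ lab B := by
      rw [k1]
      intro hN
      have := hW.2.1.mem_iff.1 hN
      exact absurd this (by simp)
    refine ⟨(A ++ .bl N .xp .zp :: B, d, f, i, Rp d f x - pos (EZ T v B)), ?_, A, B, h1, rfl,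
      fun hA => hN (List.mem_append_left _ hA), hi, rfl⟩
    simp only [mem_product, mem_univ, true_and]
    refine ⟨?_, ?_⟩
    · rw [mem_VQ, k2 N]
      refine ⟨hW.1, ?_, h2⟩
      rw [lab_append, lab_cons_bl]
      refine List.perm_middle.trans ?_
      rw [k1, List.range_succ]
      refine (hW.2.1.cons N).trans ?_
      exact (List.perm_append_singleton N (List.range N)).symm
    · rw [mem_box]
      unfold near at h3 ⊢
      obtain ⟨h5, h6, h7⟩ := h3
      rw [abs_sub_comm] at h5 h6 h7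
      refine ⟨?_, ?_, ?_⟩
      · simpa using h5
      · simpa using h6
      · simpa using h7
  · rintro ⟨W', d, f, i, y⟩ _ ⟨W₁, x₁⟩ h1 ⟨W₂, x₂⟩ h2
    simp only [Set.mem_ofPred_eq] at h1 h2
    obtain ⟨-, A, B, hp, e1, e2, e3, e4⟩ := h1
    obtain ⟨-, A', B', -, e1', e2', e3', e4'⟩ := h2
    rw [e1] at e1'
    obtain ⟨rfl, rfl⟩ := split_unique N A A' B B' _ _ _ _ e2 e2' e1'
    have hW : W₁ = W₂ := (List.map_injective_iff.2 (rZ_inj hrtc hp)) (Ra_unique e3 e3')
    have hx : x₁ = x₂ := by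
      rw [e4] at e4'
      exact Rp_inj hrtc hp (sub_left_injective e4')
    subst hW hx
    rfl

open K3YCNT in
/-- counting -/
theorem cnt {k : List V} (T L B R : ℕ) (v : ℕ → List Dir) (hv : SmB L B v) (hLL : LLat T L R)
    (hR : 1 ≤ R) (N : ℕ) : ∃ c : ℝ, 0 < c ∧ ∀ᶠ n : ℕ in atTop,
    c * (n : ℝ) ^ (2 / 3 : ℝ) * (VQ k T L v N n).card ≤ (VQ k T L v (N + 1) n).card := by
  have hbas := e_bas
  have hmany := d_many
  obtain ⟨c, hc, hev⟩ := hmany R hR
  set D := ((List.range N).map (fun i => (blk T (v i)).length - 1)).sum with hD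
  set r := raZ T L B with hr
  set M0 : ℕ := N * (2 * r + 1) ^ 3 with hM0
  set Q : ℕ := (6 * (6 * (3 * 13 ^ 3))) with hQ
  have hQ0 : (0 : ℝ) < Q := by
    rw [hQ]
    positivity
  refine ⟨c / (2 * Q), by positivity, ?_⟩
  have h1 := (tendsto_add_atTop_nat D).eventually hev
  have h2 : ∀ᶠ n : ℕ in atTop, (M0 : ℝ) ≤ c / 2 * (n : ℝ) ^ (2 / 3 : ℝ) := by
    have ht : Tendsto (fun n : ℕ => c / 2 * (n : ℝ) ^ (2 / 3 : ℝ)) atTop atTop := by
      apply Tendsto.const_mul_atTop (by positivity)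
      exact (tendsto_rpow_atTop (by norm_num)).comp tendsto_natCast_atTop_atTop
    exact ht.eventually_ge_atTop _
  filter_upwards [h1, h2] with n hn1 hn2
  have hC : ∀ W : List Sz, ∃ C : Finset Z3, W ∈ VQ k T L v N n →
      (c / 2 * (n : ℝ) ^ (2 / 3 : ℝ) ≤ C.card ∧ ∀ x ∈ C, ¬ near 6 x 0 ∧
        (∃ N, Cont R {p | p ∈ path (EZ T v W)} x N) ∧ faZ T v r W x) := by
    intro W
    by_cases hW : W ∈ VQ k T L v N n
    swap
    · exact ⟨∅, fun h => absurd h hW⟩
    rw [mem_VQ] at hW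
    obtain ⟨hW1, hW2, hW3⟩ := hW
    have hlen : (EZ T v W).length = n + D := by
      rw [(hbas T L B v hv W).2.2.1, hW1, (hW2.map _).sum_eq]
    obtain ⟨C, hC1, hC2⟩ := hn1 (EZ T v W) hW3.ext hlen
    refine ⟨C.filter (fun x => faZ T v r W x), fun _ => ⟨?_, ?_⟩⟩
    · have hbad : (C.filter (fun x => ¬ faZ T v r W x)).card ≤ M0 := by
        have hsub : C.filter (fun x => ¬ faZ T v r W x) ⊆
            (bps T v W).toFinset.biUnion (fun q => box r q) := by
          intro x hx
          rw [mem_filter] at hx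
          obtain ⟨-, hx⟩ := hx
          unfold faZ at hx
          push Not at hx
          obtain ⟨A, B', i, d, f, hAB, hx⟩ := hx
          rw [mem_biUnion]
          refine ⟨pos (EZ T v B'), ?_, mem_box.2 hx⟩
          rw [List.mem_toFinset, hAB]
          exact mem_bps T v A B' i d f
        refine (card_le_card hsub).trans ?_
        refine (card_biUnion_le_card_mul _ _ ((2 * r + 1) ^ 3) (fun q _ => (card_box r q).le)).trans
          ?_
        rw [hM0]
        apply Nat.mul_le_mul_right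
        refine (List.toFinset_card_le _).trans ?_
        rw [bps_length, hW2.length_eq, List.length_range]
      have hsum := card_filter_add_card_filter_not (s := C) (fun x => faZ T v r W x)
      have hn3 : (n : ℝ) ^ (2 / 3 : ℝ) ≤ ((n + D : ℕ) : ℝ) ^ (2 / 3 : ℝ) := by
        apply Real.rpow_le_rpow (by positivity) _ (by norm_num)
        exact_mod_cast Nat.le_add_right _ _
      have hn4 : c * (n : ℝ) ^ (2 / 3 : ℝ) ≤ C.card :=
        (mul_le_mul_of_nonneg_left hn3 hc.le).trans hC1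
      have hb' : ((C.filter (fun x => ¬ faZ T v r W x)).card : ℝ) ≤ M0 := by
        exact_mod_cast hbad
      have hs' : ((C.filter (fun x => faZ T v r W x)).card : ℝ) +
          ((C.filter (fun x => ¬ faZ T v r W x)).card : ℝ) = C.card := by
        exact_mod_cast hsum
      linarith
    · intro x hx
      rw [mem_filter] at hx
      exact ⟨(hC2 x hx.1).1, (hC2 x hx.1).2, hx.2⟩
  choose C hC using hC
  have key := count (k := k) T L v N n C (by
    intro W hW x hx
    obtain ⟨-, h3⟩ := hC W hW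
    obtain ⟨h4, ⟨N', h5⟩, h6⟩ := h3 x hx
    exact con T L B R v hv hLL W (mem_VQ.1 hW).2.2 x N' h5 h4 h6 N)
  have hlow : c / 2 * (n : ℝ) ^ (2 / 3 : ℝ) * (VQ k T L v N n).card ≤
      ((∑ W ∈ VQ k T L v N n, (C W).card : ℕ) : ℝ) := by
    push_cast
    rw [mul_comm, ← nsmul_eq_mul]
    exact Finset.card_nsmul_le_sum _ _ _ (fun W hW => (hC W hW).1)
  have key' : ((∑ W ∈ VQ k T L v N n, (C W).card : ℕ) : ℝ) ≤ (VQ k T L v (N + 1) n).card * Q := by
    exact_mod_cast key
  have hfin := hlow.trans key'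
  rw [div_mul_eq_mul_div, div_mul_eq_mul_div, div_le_iff₀ (by positivity)]
  calc c * (n : ℝ) ^ (2 / 3 : ℝ) * (VQ k T L v N n).card
      = 2 * (c / 2 * (n : ℝ) ^ (2 / 3 : ℝ) * (VQ k T L v N n).card) := by ring
    _ ≤ 2 * ((VQ k T L v (N + 1) n).card * Q) := by linarith
    _ = (VQ k T L v (N + 1) n).card * (2 * Q) := by ring

open K3YZERO in
/-- no blocks -/
theorem zero {k : List V} (T L : ℕ) (v : ℕ → List Dir) (n : ℕ) :
    (VQ k T L v 0 n).card = a (Ok k) n := by
  unfold a
  symm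
  refine Finset.card_bij (fun w _ => w.map Sz.lt) ?_ ?_ ?_
  · intro w hw
    obtain ⟨h1, h2, h3⟩ := mem_K.1 hw
    refine mem_VQ.2 ⟨by rw [List.length_map, h1], by rw [lab_map]; rfl, ?_⟩
    refine ⟨?_, ?_, ?_, ?_⟩
    · rw [BZ_map]; exact h3
    · rw [BZ_map]; exact h2
    · rw [EZ_map]; exact h2
    · intro A B i d f h
      exfalso
      have h4 : lab (w.map Sz.lt) = [] := lab_map w
      rw [h] at h4
      unfold lab at h4
      rw [List.filterMap_eq_nil_iff] at h4
      have := h4 (.bl i d f) (by simp)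
      simp at this
  · intro w1 _ w2 _ h
    have h1 := congrArg BZ h
    rwa [BZ_map, BZ_map] at h1
  · intro W hW
    obtain ⟨h1, h2, h3⟩ := mem_VQ.1 hW
    have h4 : lab W = [] := List.perm_nil.1 h2
    refine ⟨BZ W, mem_K.2 ⟨?_, h3.base, h3.u⟩, map_BZ W h4⟩
    unfold BZ
    rw [List.length_map]
    exact h1

end

end KNB
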