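import Pool.Agent.H246K3.All3
import Pool.Agent.L5helper86.KB.Base

/-!
# Lattice knots: several local knots in polygons of an arbitrary knot type

Adapted from the files `Pool/Agent/H246K3/Y*.lean` (where the polygons without blocks are
unknotted): here the polygons without blocks have the knot type of a fixed polygon `k`.
-/

set_option autoImplicit false

namespace KNB

open Finset Filter Topology KN
open scoped Classical

noncomputable section

/-- the oriented knot type of `w` is the one of `k` -/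
def Ok (k : List V) (w : List Dir) : Prop := Same (vl w) k

/-- words with blocks: the blocks have room, without blocks the polygon is of type `k` -/
structure VaQ (k : List V) (T L : ℕ) (v : ℕ → List Dir) (W : List Sz) : Prop where
  u : Same (vl (BZ W)) k
  base : SAP (BZ W)
  ext : SAP (EZ T v W)
  room : ∀ (A B : List Sz) (i : ℕ) (d f : Dir), W = A ++ .bl i d f :: B →
    perp d f ∧ RmD T L d f (EZ T v A ++ f :: EZ T v B) (pos (EZ T v B))

/-- valid words of length `n` with one block of each type `0, ..., N - 1` -/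
def VQ (k : List V) (T L : ℕ) (v : ℕ → List Dir) (N n : ℕ) : Finset (List Sz) :=
  (WZ N n).filter (fun W => (lab W).Perm (List.range N) ∧ VaQ k T L v W)

/-- membership -/
theorem mem_VQ {k : List V} {T L : ℕ} {v : ℕ → List Dir} {N n : ℕ} {W : List Sz} :
    W ∈ VQ k T L v N n ↔ W.length = n ∧ (lab W).Perm (List.range N) ∧ VaQ k T L v W := by
  unfold VQ
  rw [mem_filter, K3YMEM.mem_WZ]
  constructor
  · rintro ⟨⟨h1, -⟩, h2, h3⟩
    exact ⟨h1, h2, h3⟩
  · rintro ⟨h1, h2, h3⟩
    exact ⟨⟨h1, K3YMEM.mem_SyZ h2⟩, h2, h3⟩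

/-- rotations -/
theorem rot {T L B : ℕ} {k : List V} {v : ℕ → List Dir} (hv : SmB L B v) {W : List Sz}
    (hW : VaQ k T L v W) {d f : Dir} (hdf : perp d f) : VaQ k T L v (W.map (rZ d f)) := by
  have h1 := e_bas
  have h2 := T_rt_proof
  have h3 := T_rtc_proof
  have hperp : ∀ A B i d' f', W = A ++ .bl i d' f' :: B → perp d' f' :=
    fun A B i d' f' h => (hW.room A B i d' f' h).1
  obtain ⟨-, -, -, -, hmap⟩ := h1 T L B v hv W
  obtain ⟨m1, m2, -⟩ := hmap d f hdf hperp
  obtain ⟨⟨d'', f'', -, -, -, -, -, hinv, -⟩, -, hpp, hadd⟩ := h3 d f hdf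
  refine ⟨?_, ?_, ?_, ?_⟩
  · rw [← m2]
    exact (h2 d f hdf _ hW.base).2.symm.trans hW.u
  · rw [← m2]
    exact (h2 d f hdf _ hW.base).1
  · rw [← m1]
    exact (h2 d f hdf _ hW.ext).1
  · intro A' B' i d' f' h
    obtain ⟨A, B, d1, f1, rfl, rfl, rfl, rfl, rfl⟩ := K3YROT.map_eq h
    obtain ⟨hp1, hr1, hr2⟩ := hW.room A B i d1 f1 rfl
    have hA : EZ T v (A.map (rZ d f)) = (EZ T v A).map (rt d f) := by
      obtain ⟨-, -, -, -, hm⟩ := h1 T L _ v hv A
      refine (hm d f hdf ?_).1.symm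
      rintro A1 B1 i2 d2 f2 rfl
      exact hperp A1 (B1 ++ .bl i d1 f1 :: B) i2 d2 f2 (by simp)
    have hB : EZ T v (B.map (rZ d f)) = (EZ T v B).map (rt d f) := by
      obtain ⟨-, -, -, -, hm⟩ := h1 T L _ v hv B
      refine (hm d f hdf ?_).1.symm
      rintro A1 B1 i2 d2 f2 rfl
      exact hperp (A ++ .bl i d1 f1 :: A1) B1 i2 d2 f2 (by simp)
    have hw : EZ T v (A.map (rZ d f)) ++ rt d f f1 :: EZ T v (B.map (rZ d f)) =
        (EZ T v A ++ f1 :: EZ T v B).map (rt d f) := by
      rw [hA, hB, List.map_append, List.map_cons]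
    have hpos : pos (EZ T v (B.map (rZ d f))) = Rp d f (pos (EZ T v B)) := by
      rw [hB, (hpp _).1]
    have key : ∀ h : Z3, pos (EZ T v B) + Rp d1 f1 h ∉ path (EZ T v A ++ f1 :: EZ T v B) →
        pos (EZ T v (B.map (rZ d f))) + Rp (rt d f d1) (rt d f f1) h ∉
          path (EZ T v (A.map (rZ d f)) ++ rt d f f1 :: EZ T v (B.map (rZ d f))) := by
      intro h hn hcon
      rw [hw, (hpp _).2, hpos, K3YROT.Rp_comp h3 hdf hp1, ← hadd, List.mem_map] at hcon
      obtain ⟨p, hp, hpe⟩ := hcon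
      have hpe2 := congrArg (Rp d'' f'') hpe
      rw [hinv, hinv] at hpe2
      rw [hpe2] at hp
      exact hn hp
    refine ⟨(K3YROT.rt_perp d f d1 f1 hdf hp1).1, ?_, ?_⟩
    · intro j hj1 hj2
      exact ⟨key _ (hr1 j hj1 hj2).1, key _ (hr1 j hj1 hj2).2⟩
    · intro h a1 a2 a3 a4 a5
      exact key _ (hr2 h a1 a2 a3 a4 a5)

/-- the word with a block replaced by an edge -/
theorem rep {k : List V} (T L K : ℕ) (v : ℕ → List Dir) (hv : SmB L K v) (A B : List Sz)
    (i : ℕ) (d f : Dir) (hV : VaQ k T L v (A ++ .bl i d f :: B)) :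
    (∀ p ∈ path (EZ T v A ++ f :: EZ T v B), p ∈ path (EZ T v (A ++ .bl i d f :: B))) ∧
    SAP (EZ T v A ++ f :: EZ T v B) := by
  have e : EZ T v (A ++ .bl i d f :: B) = EZ T v A ++ (blk T (v i)).map (rt d f) ++ EZ T v B := by
    rw [K3YFLIP.EZ_append, K3YFLIP.EZ_bl, List.append_assoc]
  obtain ⟨h3, h4⟩ := T_Wrep_proof (EZ T v A) (EZ T v B) ((blk T (v i)).map (rt d f)) f
    (K3YFLIP.pos_blk e_bas T L K v hv i d f) (K3YFLIP.blk_ne T v i d f)
  rw [← e] at h3 h4
  refine ⟨h3, h4 hV.ext ?_⟩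
  have h5 := hV.base.1
  unfold BZ at h5
  rw [List.length_map, List.length_append, List.length_cons] at h5
  have h6 := K3YFLIP.length_EZ e_bas T L K v hv A
  have h7 := K3YFLIP.length_EZ e_bas T L K v hv B
  rw [List.length_append, List.length_cons]
  omega

end

end KNB
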