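import Mathlib

/-!
# Comparison of exponents
-/

set_option autoImplicit false

namespace KNB

open Filter Topology

/-- if `c n ^ s x_n ≤ y_(n + m)` for even `n` then the exponents of `x` and `y` differ by at least
`s`, or the growth rate of `y` is larger -/
theorem expo {x y : ℕ → ℝ} {s c A A' α α' μ μ' : ℝ} (r : ℕ) (hc : 0 < c) (hA : 0 < A)
    (hA' : 0 < A') (hμ : 0 < μ) (hμ' : 0 < μ')
    (h : ∀ᶠ j : ℕ in atTop, c * (2 * j : ℝ) ^ s * x (2 * j) ≤ y (2 * (j + r)))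
    (hx : Tendsto (fun j : ℕ => x (2 * j) / ((2 * j : ℝ) ^ (α - 3) * μ ^ (2 * j))) atTop (𝓝 A))
    (hy : Tendsto (fun j : ℕ => y (2 * j) / ((2 * j : ℝ) ^ (α' - 3) * μ' ^ (2 * j))) atTop
      (𝓝 A')) : μ < μ' ∨ (μ = μ' ∧ α + s ≤ α') := by
  have hy' := hy.comp (tendsto_add_atTop_nat r)
  -- the quotient of the powers of `j + r` and `j`
  have hq : Tendsto (fun j : ℕ => ((2 * ((j + r : ℕ) : ℝ)) / (2 * j)) ^ (α' - 3)) atTop
      (𝓝 1) := by
    have h1 : Tendsto (fun j : ℕ => (2 * ((j + r : ℕ) : ℝ)) / (2 * j)) atTop (𝓝 1) := by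
      have h2 : Tendsto (fun j : ℕ => 1 + (r : ℝ) / j) atTop (𝓝 (1 + 0)) :=
        tendsto_const_nhds.add (tendsto_const_div_atTop_nhds_zero_nat (r : ℝ))
      rw [add_zero] at h2
      refine h2.congr' ?_
      filter_upwards [eventually_gt_atTop 0] with j hj
      have hj' : (j : ℝ) ≠ 0 := by positivity
      push_cast
      field_simp
    have h3 := h1.rpow_const (p := α' - 3) (Or.inl one_ne_zero)
    rwa [Real.one_rpow] at h3
  -- the bounded quantity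
  have hb : ∃ C : ℝ, 0 < C ∧ ∀ᶠ j : ℕ in atTop,
      (2 * j : ℝ) ^ (s + α - α') * (μ / μ') ^ (2 * j) ≤ C := by
    have hlim : Tendsto (fun j : ℕ => ((2 * ((j + r : ℕ) : ℝ)) / (2 * j)) ^ (α' - 3) *
        μ' ^ (2 * r) * (y (2 * (j + r)) /
        ((2 * ((j + r : ℕ) : ℝ)) ^ (α' - 3) * μ' ^ (2 * (j + r)))) ) atTop
        (𝓝 (1 * μ' ^ (2 * r) * A')) := (hq.mul_const _).mul hy'
    have hU : ∀ᶠ j : ℕ in atTop, ((2 * ((j + r : ℕ) : ℝ)) / (2 * j)) ^ (α' - 3) *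
        μ' ^ (2 * r) * (y (2 * (j + r)) /
        ((2 * ((j + r : ℕ) : ℝ)) ^ (α' - 3) * μ' ^ (2 * (j + r)))) <
          1 * μ' ^ (2 * r) * A' + 1 := hlim.eventually_lt_const (by linarith)
    have hL : ∀ᶠ j : ℕ in atTop, A / 2 < x (2 * j) / ((2 * j : ℝ) ^ (α - 3) * μ ^ (2 * j)) :=
      hx.eventually_const_lt (by linarith)
    refine ⟨(1 * μ' ^ (2 * r) * A' + 1) / (c * (A / 2)), by positivity, ?_⟩
    filter_upwards [h, hU, hL, eventually_gt_atTop 0] with j hj hUj hLj hj0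
    have hj' : (0 : ℝ) < 2 * j := by positivity
    have hjr : (0 : ℝ) < 2 * ((j + r : ℕ) : ℝ) := by
      have : 0 < j + r := by omega
      positivity
    set X := x (2 * j) / ((2 * j : ℝ) ^ (α - 3) * μ ^ (2 * j)) with hX
    have p1 : (0 : ℝ) < (2 * j : ℝ) ^ (α - 3) := Real.rpow_pos_of_pos hj' _
    have p2 : (0 : ℝ) < (2 * j : ℝ) ^ s := Real.rpow_pos_of_pos hj' _
    have p3 : (0 : ℝ) < (2 * j : ℝ) ^ (α' - 3) := Real.rpow_pos_of_pos hj' _
    have p4 : (0 : ℝ) < (2 * ((j + r : ℕ) : ℝ)) ^ (α' - 3) := Real.rpow_pos_of_pos hjr _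
    have ex : x (2 * j) = X * ((2 * j : ℝ) ^ (α - 3) * μ ^ (2 * j)) := by
      rw [hX]
      field_simp
    have e1 : (2 * j : ℝ) ^ (s + α - α') =
        (2 * j : ℝ) ^ s * (2 * j : ℝ) ^ (α - 3) / (2 * j : ℝ) ^ (α' - 3) := by
      rw [← Real.rpow_add hj', ← Real.rpow_sub hj']
      congr 1
      ring
    have e2 : (μ / μ') ^ (2 * j) = μ ^ (2 * j) / μ' ^ (2 * j) := div_pow _ _ _
    have e3 : ((2 * ((j + r : ℕ) : ℝ)) / (2 * j)) ^ (α' - 3) =
        (2 * ((j + r : ℕ) : ℝ)) ^ (α' - 3) / (2 * j : ℝ) ^ (α' - 3) :=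
      Real.div_rpow hjr.le hj'.le _
    have e4 : μ' ^ (2 * (j + r)) = μ' ^ (2 * j) * μ' ^ (2 * r) := by
      rw [← pow_add]
      congr 1
      ring
    rw [e3, e4] at hUj
    have e5 : (2 * ((j + r : ℕ) : ℝ)) ^ (α' - 3) / (2 * j : ℝ) ^ (α' - 3) * μ' ^ (2 * r) *
        (y (2 * (j + r)) / ((2 * ((j + r : ℕ) : ℝ)) ^ (α' - 3) *
          (μ' ^ (2 * j) * μ' ^ (2 * r)))) =
        y (2 * (j + r)) / ((2 * j : ℝ) ^ (α' - 3) * μ' ^ (2 * j)) := by
      field_simp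
    rw [e5] at hUj
    have p5 : (0 : ℝ) < (2 * j : ℝ) ^ (α' - 3) * μ' ^ (2 * j) := by positivity
    rw [e1, e2, le_div_iff₀ (by positivity)]
    have h5 : c * (2 * j : ℝ) ^ s * (X * ((2 * j : ℝ) ^ (α - 3) * μ ^ (2 * j))) ≤
        (1 * μ' ^ (2 * r) * A' + 1) * ((2 * j : ℝ) ^ (α' - 3) * μ' ^ (2 * j)) := by
      rw [← ex]
      refine hj.trans ?_
      rw [div_lt_iff₀ p5] at hUj
      exact hUj.le
    have h6 : c * (2 * j : ℝ) ^ s * (A / 2 * ((2 * j : ℝ) ^ (α - 3) * μ ^ (2 * j))) ≤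
        (1 * μ' ^ (2 * r) * A' + 1) * ((2 * j : ℝ) ^ (α' - 3) * μ' ^ (2 * j)) := by
      refine le_trans ?_ h5
      gcongr
    calc (2 * j : ℝ) ^ s * (2 * j : ℝ) ^ (α - 3) / (2 * j : ℝ) ^ (α' - 3) *
          (μ ^ (2 * j) / μ' ^ (2 * j)) * (c * (A / 2))
        = c * (2 * j : ℝ) ^ s * (A / 2 * ((2 * j : ℝ) ^ (α - 3) * μ ^ (2 * j))) /
          ((2 * j : ℝ) ^ (α' - 3) * μ' ^ (2 * j)) := by
          field_simp
      _ ≤ 1 * μ' ^ (2 * r) * A' + 1 := by
          rw [div_le_iff₀ p5]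
          exact h6
  obtain ⟨C, hC, hb⟩ := hb
  by_contra hcon
  push Not at hcon
  obtain ⟨h1, h2⟩ := hcon
  -- the quantity is unbounded
  have hunb : Tendsto (fun j : ℕ => (2 * j : ℝ) ^ (s + α - α') * (μ / μ') ^ (2 * j)) atTop
      atTop := by
    rcases eq_or_lt_of_le h1 with he | hlt
    · have h3 := h2 he.symm
      rw [← he, div_self hμ'.ne']
      simp only [one_pow, mul_one]
      have h4 : Tendsto (fun j : ℕ => (2 * j : ℝ)) atTop atTop :=
        tendsto_natCast_atTop_atTop.const_mul_atTop (by norm_num)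
      exact (tendsto_rpow_atTop (by linarith)).comp h4
    · set ρ := μ / μ' with hρ
      have hρ1 : 1 < ρ := by rw [hρ, lt_div_iff₀ hμ', one_mul]; exact hlt
      obtain ⟨K, hK⟩ := exists_nat_ge (-(s + α - α'))
      have h3 := tendsto_pow_const_div_const_pow_of_one_lt K hρ1
      have h4 : Tendsto (fun j : ℕ => ((2 * j : ℕ) : ℝ) ^ K / ρ ^ (2 * j)) atTop (𝓝 0) :=
        h3.comp (tendsto_id.const_mul_atTop' (by norm_num))
      have h5 : Tendsto (fun j : ℕ => (((2 * j : ℕ) : ℝ) ^ K / ρ ^ (2 * j))⁻¹) atTop atTop := by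
        apply Tendsto.inv_tendsto_nhdsGT_zero
        rw [tendsto_nhdsWithin_iff]
        refine ⟨h4, ?_⟩
        filter_upwards [eventually_gt_atTop 0] with j hj
        have : (0 : ℝ) < ((2 * j : ℕ) : ℝ) := by
          have : 0 < 2 * j := by omega
          exact_mod_cast this
        have hρ0 : 0 < ρ := by linarith
        exact Set.mem_Ioi.2 (by positivity)
      refine tendsto_atTop_mono' _ ?_ h5
      filter_upwards [eventually_gt_atTop 0] with j hj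
      have hj1 : (1 : ℝ) ≤ 2 * j := by
        have : (1 : ℝ) ≤ j := by exact_mod_cast hj
        linarith
      have hj0 : (0 : ℝ) < 2 * j := by linarith
      rw [inv_div, div_eq_mul_inv, mul_comm]
      have hρ0 : 0 < ρ := by linarith
      refine mul_le_mul_of_nonneg_right ?_ (by positivity)
      push_cast
      rw [← Real.rpow_natCast, ← Real.rpow_neg hj0.le]
      exact Real.rpow_le_rpow_of_exponent_le hj1 (by linarith)
  obtain ⟨j, h3, h4⟩ := (hb.and (hunb.eventually_gt_atTop C)).exists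
  linarith

end KNB
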