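import Pool.Agent.L5helper86.KB.Over

/-!
# Lattice knots: bounded multiplicity
-/

set_option autoImplicit false

namespace KNB

open Finset Filter Topology KN
open scoped Classical

noncomputable section

open K3YOVER (EZ_append EZ_cons BZ_append BZ_cons blk_pos blk_le)

/-- `k` is not a connected sum of some knot and `m` copies of `k1`, for some `m` -/
def Fin1 (k k1 : List V) : Prop := ∃ m : ℕ, ∀ k' : List V, (∃ w, SAP w ∧ Same (vl w) k') →
  ¬ SumQ k' (fun _ => k1) m k

/-- far -/
def far (D p q : ℕ) : Prop := p + D ≤ q ∨ q + D ≤ p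

theorem greedy (P : ℕ → Prop) (D : ℕ) (R₀ : Finset ℕ) (m : ℕ) :
    (∃ e : ℕ → ℕ, (∀ j < m, P (e j)) ∧ (∀ j < m, ∀ j' < m, j ≠ j' → far D (e j) (e j')) ∧
      ∀ j < m, ∀ q ∈ R₀, far D (e j) q) ∨
    ∃ R : Finset ℕ, R.card ≤ R₀.card + m ∧ ∀ p, P p → ∃ q ∈ R, ¬ far D p q := by
  induction m with
  | zero =>
    left
    exact ⟨fun _ => 0, by simp, by simp, by simp⟩
  | succ m ih =>
    rcases ih with ⟨e, h1, h2, h3⟩ | ⟨R, h1, h2⟩
    · by_cases h : ∃ p, P p ∧ (∀ j < m, far D p (e j)) ∧ ∀ q ∈ R₀, far D p q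
      · left
        obtain ⟨p, hp, hp1, hp2⟩ := h
        have hsymm : ∀ {x y : ℕ}, far D x y → far D y x := fun h => h.symm
        refine ⟨Function.update e m p, ?_, ?_, ?_⟩
        · intro j hj
          by_cases hjm : j = m
          · rw [hjm, Function.update_self]; exact hp
          · rw [Function.update_of_ne hjm]; exact h1 j (by omega)
        · intro j hj j' hj' hne
          by_cases hjm : j = m
          · subst hjm
            rw [Function.update_self, Function.update_of_ne hne.symm]
            exact hp1 j' (by omega)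
          · by_cases hjm' : j' = m
            · subst hjm'
              rw [Function.update_self, Function.update_of_ne hjm]
              exact hsymm (hp1 j (by omega))
            · rw [Function.update_of_ne hjm, Function.update_of_ne hjm']
              exact h2 j (by omega) j' (by omega) hne
        · intro j hj q hq
          by_cases hjm : j = m
          · rw [hjm, Function.update_self]; exact hp2 q hq
          · rw [Function.update_of_ne hjm]; exact h3 j (by omega) q hq
      · right
        push Not at h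
        refine ⟨R₀ ∪ (range m).image e, ?_, ?_⟩
        · refine (card_union_le _ _).trans ?_
          have := card_image_le (s := range m) (f := e)
          rw [card_range] at this
          omega
        · intro p hp
          by_cases hc : ∀ j < m, far D p (e j)
          · obtain ⟨q, hq, hq2⟩ := h p hp hc
            exact ⟨q, mem_union_left _ hq, hq2⟩
          · push Not at hc
            obtain ⟨j, hj, hj2⟩ := hc
            exact ⟨e j, mem_union_right _ (mem_image_of_mem _ (Finset.mem_range.2 hj)), hj2⟩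
    · right
      exact ⟨R, by omega, h2⟩

/-- transfer of a block to the polygon without blocks -/
theorem transfer {T L Bd : ℕ} {v : ℕ → List Dir} (hv : SmB L Bd v) {W₀ : List Sz}
    {A B : List Dir} {d f : Dir} {i : ℕ}
    (hE : Emb T L (v i) (EZ T v W₀) A d f B)
    (hno : ∀ (A₀ B₀ : List Sz) (i₀ : ℕ) (d₀ f₀ : Dir), W₀ = A₀ ++ .bl i₀ d₀ f₀ :: B₀ →
      far (Bd + 2 * T) A.length (EZ T v A₀).length) :
    ∃ X C Z, W₀ = X ++ C ++ Z ∧ EZ T v X = A ∧ C.length = (blk T (v i)).length ∧
      EZ T v C = (blk T (v i)).map (rt d f) ∧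
      Emb T L (v i) (BZ W₀) (BZ X) d f (BZ Z) := by
  obtain ⟨hu, hperp, hroom⟩ := hE
  have hle := blk_le hv T i
  have hI : 0 < ((blk T (v i)).map (rt d f)).length := by
    rw [List.length_map]; exact blk_pos T (v i)
  obtain ⟨X, C, Z, hXCZ, hX, hZ, hC⟩ := K3YOVER.main T v W₀ A ((blk T (v i)).map (rt d f)) B hI hu
    (by
      intro A₀ B₀ i₀ d₀ f₀ h0 hc
      have h1 := blk_le hv T i₀
      rw [List.length_map] at hc
      have := hno A₀ B₀ i₀ d₀ f₀ h0
      unfold far at this
      omega)
  have hBS : BZ W₀ = BZ X ++ (blk T (v i)).map (rt d f) ++ BZ Z := by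
    rw [hXCZ, BZ_append, BZ_append, hC]
  have hCl : C.length = (blk T (v i)).length := by
    have h2 : (BZ C).length = C.length := by simp [BZ]
    rw [hC, List.length_map] at h2
    exact h2.symm
  have hEC : (EZ T v C).length = C.length := by
    have h1 := congrArg List.length hu
    rw [hXCZ, EZ_append, EZ_append, hX, hZ] at h1
    simp only [List.length_append, List.length_map] at h1
    omega
  have hEC' : EZ T v C = (blk T (v i)).map (rt d f) := by
    rw [← hC]
    exact K3YTYPE.EZ_nil C (lab_nil_of C hEC.le)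
  refine ⟨X, C, Z, hXCZ, hX, hCl, hEC', hBS, hperp, ?_⟩
  have hsub : ∀ p ∈ path (BZ X ++ f :: BZ Z), p ∈ path (A ++ f :: B) := by
    intro p hp
    have h := (e_bas T L Bd v hv (X ++ .lt f :: Z)).2.1 p (by
      rw [BZ_append, BZ_cons]; exact hp)
    rw [EZ_append, EZ_cons, hX, hZ] at h
    simpa [szw] using h
  have hposZ : pos B = pos (BZ Z) := by
    rw [← hZ]; exact (e_bas T L Bd v hv Z).1
  rw [hposZ] at hroom
  exact K3YTYPE.RmD_mono hroom hsub

/-- prefixes -/
theorem prefix_len {T : ℕ} {v : ℕ → List Dir} : ∀ {P P' S S' : List Sz}, P ++ S = P' ++ S' →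
    (EZ T v P).length ≤ (EZ T v P').length → P.length ≤ P'.length := by
  intro P
  induction P with
  | nil => intro _ _ _ _ _; simp
  | cons s P ih =>
    intro P' S S' h hl
    cases P' with
    | nil =>
      exfalso
      rw [EZ_cons, List.length_append] at hl
      have h0 := K3YCON.szw_len T v s
      have h1 : (EZ T v ([] : List Sz)).length = 0 := rfl
      omega
    | cons t P' =>
      simp only [List.cons_append, List.cons.injEq] at h
      obtain ⟨rfl, h⟩ := h
      rw [EZ_cons, EZ_cons, List.length_append, List.length_append] at hl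
      have := ih h (by omega)
      simp only [List.length_cons]
      omega

/-- the key lemma -/
theorem few {k : List V} {T L Bd : ℕ} {v : ℕ → List Dir} (hv : SmB L Bd v) {i m : ℕ}
    {k1 : List V} (hk1 : Same (vl (.zm :: v i)) k1)
    (hm : ∀ k' : List V, (∃ w, SAP w ∧ Same (vl w) k') → ¬ SumQ k' (fun _ => k1) m k)
    {W₀ : List Sz} (hV₀ : VaQ k T L v W₀) (hlen : m * (Bd + 2 * T) + 4 ≤ W₀.length)
    (R₀ : Finset ℕ) (hR₀ : ∀ (A₀ B₀ : List Sz) (i₀ : ℕ) (d₀ f₀ : Dir),
      W₀ = A₀ ++ .bl i₀ d₀ f₀ :: B₀ → (EZ T v A₀).length ∈ R₀)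
    (P : ℕ → Prop) (hP : ∀ p, P p → ∃ (A B : List Dir) (d f : Dir), A.length = p ∧
      Emb T L (v i) (EZ T v W₀) A d f B) :
    ∃ R : Finset ℕ, R.card ≤ R₀.card + m ∧ ∀ p, P p → ∃ q ∈ R, ¬ far (Bd + 2 * T) p q := by
  rcases greedy P (Bd + 2 * T) R₀ m with ⟨e, h1, h2, h3⟩ | h
  swap
  · exact h
  exfalso
  have hle := blk_le hv T i
  have key : ∀ j : ℕ, ∃ (X C Z : List Sz) (d f : Dir), j < m → (W₀ = X ++ C ++ Z ∧
      (EZ T v X).length = e j ∧ C.length = (blk T (v i)).length ∧
      EZ T v C = (blk T (v i)).map (rt d f) ∧ Emb T L (v i) (BZ W₀) (BZ X) d f (BZ Z)) := by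
    intro j
    by_cases hj : j < m
    · obtain ⟨A, B, d, f, hA, hE⟩ := hP _ (h1 j hj)
      obtain ⟨X, C, Z, g1, g2, g3, g4, g5⟩ := transfer hv hE (by
        intro A₀ B₀ i₀ d₀ f₀ h0
        rw [hA]
        exact h3 j hj _ (hR₀ A₀ B₀ i₀ d₀ f₀ h0))
      exact ⟨X, C, Z, d, f, fun _ => ⟨g1, by rw [g2, hA], g3, g4, g5⟩⟩
    · exact ⟨[], [], [], .xp, .xp, fun h => absurd h hj⟩
  choose X C Z d f key using key
  have hBl : ∀ Y : List Sz, (BZ Y).length = Y.length := by
    intro Y; simp [BZ]
  have hle2 : ∀ j < m, ∀ j' < m, e j + (Bd + 2 * T) ≤ e j' →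
      (BZ (X j)).length + (blk T (v i)).length ≤ (BZ (X j')).length := by
    intro j hj j' hj' hh
    obtain ⟨a1, a2, a3, a4, -⟩ := key j hj
    obtain ⟨b1, b2, -, -, -⟩ := key j' hj'
    have h5 : (X j ++ C j).length ≤ (X j').length := by
      have h6 : (X j ++ C j) ++ Z j = X j' ++ (C j' ++ Z j') := by
        rw [← a1, ← List.append_assoc, ← b1]
      refine prefix_len (T := T) (v := v) h6 ?_
      rw [EZ_append, List.length_append, a2, b2, a4, List.length_map]
      omega
    rw [hBl, hBl]
    rw [List.length_append, a3] at h5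
    exact h5
  obtain ⟨k', hk', hs⟩ := emb_sum (T := T) (L := L) (x := v i) (hv i).1 hk1 hV₀.base hV₀.u
    (fun j => BZ (X j)) (fun j => BZ (Z j)) d f m (fun j hj => (key j hj).2.2.2.2) (by
      intro j hj j' hj' hne
      rcases h2 j hj j' hj' hne with h | h
      · left
        exact hle2 j hj j' hj' h
      · right
        exact hle2 j' hj' j hj h) (by
      rw [hBl]
      have : m * (blk T (v i)).length ≤ m * (Bd + 2 * T) := Nat.mul_le_mul_left _ hle
      omega)
  exact hm k' hk' hs

open K3YMUL (Sp Sp_ge Sp_mem mem_Sp Sp_card inj WZ_card SyZ_card lab_mem) in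
/-- bounded multiplicity -/
theorem mul {k : List V} {ks : ℕ → List V} (hk : ∀ i, Fin1 k (ks i)) (T L Bd : ℕ)
    (v : ℕ → List Dir) (hv : SmB L Bd v) (hs : ∀ i, Same (vl (.zm :: v i)) (ks i)) (N : ℕ) :
    ∃ Cc : ℕ, ∀ (n : ℕ) (w : List Dir),
      ((VQ k T L v N n).filter (fun W => EZ T v W = w)).card ≤ Cc := by
  choose m hm using hk
  set D := Bd + 2 * T with hD
  set Q := (Finset.range N ×ˢ (univ : Finset (Dir × Dir))).card with hQ
  set M := ∑ i ∈ range N, m i with hM
  refine ⟨2 ^ (N * (N + M) * (2 * D) * Q) + (SyZ N).card ^ (M * D + 4), ?_⟩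
  intro n w
  set F := (VQ k T L v N n).filter (fun W => EZ T v W = w) with hF
  rcases Nat.lt_or_ge n (M * D + 4) with hn | hn
  · have h1 : F.card ≤ (WZ N n).card := by
      refine Finset.card_le_card fun W hW => ?_
      rw [hF, Finset.mem_filter, VQ, Finset.mem_filter] at hW
      exact hW.1.1
    have h2 := WZ_card N n
    have h3 : (SyZ N).card ^ n ≤ (SyZ N).card ^ (M * D + 4) :=
      Nat.pow_le_pow_right (SyZ_card N) hn.le
    exact (h1.trans (h2.trans h3)).trans (Nat.le_add_left _ _)
  refine le_trans ?_ (Nat.le_add_right _ _)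
  rcases F.eq_empty_or_nonempty with he | ⟨W0, hW0⟩
  · rw [he]; simp
  · rw [hF, Finset.mem_filter, mem_VQ] at hW0
    obtain ⟨⟨hl0, hn0, hV0⟩, hw0⟩ := hW0
    have hmi : ∀ i < N, m i ≤ M := fun i hi =>
      Finset.single_le_sum (f := m) (fun _ _ => Nat.zero_le _) (Finset.mem_range.2 hi)
    set R₀ : Finset ℕ := (Sp T v 0 W0).image (fun q => q.1) with hR₀
    have hR₀c : R₀.card ≤ N := by
      refine card_image_le.trans ((Sp_card T v W0 0).trans ?_)
      rw [hn0.length_eq, List.length_range]
    have hR : ∀ i : ℕ, ∃ R : Finset ℕ, i < N → (R.card ≤ N + M ∧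
        ∀ W ∈ F, ∀ (A B' : List Sz) (d f : Dir), W = A ++ .bl i d f :: B' →
          ∃ q ∈ R, ¬ far D (EZ T v A).length q) := by
      intro i
      by_cases hi : i < N
      swap
      · exact ⟨∅, fun h => absurd h hi⟩
      obtain ⟨R, h1, h2⟩ := few hv (hs i) (hm i) hV0 (by
          rw [hl0, ← hD]
          have : m i * D ≤ M * D := Nat.mul_le_mul_right _ (hmi i hi)
          omega) R₀ (by
          intro A₀ B₀ i₀ d₀ f₀ h0
          rw [hR₀, mem_image]
          refine ⟨(0 + (EZ T v A₀).length, i₀, d₀, f₀), ?_, by simp⟩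
          rw [h0]
          exact mem_Sp T v A₀ B₀ 0 i₀ d₀ f₀)
        (fun p => ∃ W ∈ F, ∃ (A B' : List Sz) (d f : Dir), W = A ++ .bl i d f :: B' ∧
          (EZ T v A).length = p) (by
          rintro p ⟨W, hW, A, B', d, f, hAB, hp⟩
          rw [hF, Finset.mem_filter, mem_VQ] at hW
          obtain ⟨⟨_, _, hV⟩, hw⟩ := hW
          refine ⟨EZ T v A, EZ T v B', d, f, hp, ?_, hV.room A B' i d f hAB⟩
          rw [hw0, ← hw, hAB, EZ_append, EZ_cons]
          simp [szw])
      refine ⟨R, fun _ => ⟨?_, ?_⟩⟩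
      · have := hmi i hi
        omega
      · intro W hW A B' d f hAB
        exact h2 _ ⟨W, hW, A, B', d, f, hAB, rfl⟩
    choose R hR using hR
    set J : Finset (ℕ × ℕ × Dir × Dir) :=
      (((range N).biUnion R).biUnion (fun q => Finset.Ico (q + 1 - D) (q + D))) ×ˢ
        (Finset.range N ×ˢ (univ : Finset (Dir × Dir))) with hJ
    have hJc : J.card ≤ N * (N + M) * (2 * D) * Q := by
      rw [hJ, Finset.card_product]
      refine Nat.mul_le_mul_right _ ?_
      refine Finset.card_biUnion_le.trans ?_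
      calc ∑ q ∈ (range N).biUnion R, (Finset.Ico (q + 1 - D) (q + D)).card
          ≤ ∑ _q ∈ (range N).biUnion R, 2 * D := by
            refine Finset.sum_le_sum fun q _ => ?_
            rw [Nat.card_Ico]
            omega
        _ = ((range N).biUnion R).card * (2 * D) := by rw [Finset.sum_const, smul_eq_mul]
        _ ≤ N * (N + M) * (2 * D) := by
            refine Nat.mul_le_mul_right _ ?_
            have := card_biUnion_le_card_mul (range N) R (N + M)
              (fun i hi => (hR i (Finset.mem_range.1 hi)).1)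
            rwa [card_range] at this
    have hle : F.card ≤ J.powerset.card := by
      refine Finset.card_le_card_of_injOn (fun W => Sp T v 0 W) ?_ ?_
      · intro W hW
        rw [Finset.mem_coe] at hW
        have hW' := hW
        rw [hF, Finset.mem_filter, mem_VQ] at hW
        obtain ⟨⟨_, hlab, hV⟩, hw⟩ := hW
        rw [Finset.mem_coe, Finset.mem_powerset]
        rintro ⟨p, i, d, f⟩ hp
        obtain ⟨A, B', h1, h2⟩ := Sp_mem T v W 0 p i d f hp
        have h6 : i ∈ Finset.range N := by
          have h7 := lab_mem h1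
          rw [hlab.mem_iff, List.mem_range] at h7
          exact Finset.mem_range.2 h7
        obtain ⟨q, hq, hfar⟩ := (hR i (Finset.mem_range.1 h6)).2 W hW' A B' d f h1
        rw [hJ, Finset.mem_product]
        refine ⟨?_, Finset.mem_product.2 ⟨h6, Finset.mem_univ _⟩⟩
        rw [Finset.mem_biUnion]
        refine ⟨q, Finset.mem_biUnion.2 ⟨i, h6, hq⟩, ?_⟩
        unfold far at hfar
        simp only [Finset.mem_Ico]
        omega
      · intro W hW W' hW' he
        rw [Finset.mem_coe, hF, Finset.mem_filter] at hW hW'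
        exact inj T v W W' 0 (by rw [hW.2, hW'.2]) he
    refine hle.trans ?_
    rw [Finset.card_powerset]
    exact Nat.pow_le_pow_right (by norm_num) hJc

end

end KNB
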