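import Pool.Agent.L5helper86.KB.Half

/-!
# The number of inequivalent locally flat functions with values in a finite group
-/

set_option autoImplicit false

namespace KNB

open Finset Filter Topology KN
open scoped Classical

/-- the components `i` and `j` are equal -/
def dia (G : Type) [Group G] {r : ℕ} (i j : Fin r) : Subgroup (Fin r → G) :=
  MonoidHom.eqLocus (Pi.evalMonoidHom (fun _ : Fin r => G) i)
    (Pi.evalMonoidHom (fun _ : Fin r => G) j)

theorem mem_dia {G : Type} [Group G] {r : ℕ} {i j : Fin r} {x : Fin r → G} :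
    x ∈ dia G i j ↔ x i = x j := Iff.rfl

/-- the component `i` is a power of `κ` -/
def cyl (G : Type) [Group G] {r : ℕ} (i : Fin r) (κ : G) : Subgroup (Fin r → G) :=
  (Subgroup.zpowers κ).comap (Pi.evalMonoidHom (fun _ : Fin r => G) i)

theorem mem_cyl {G : Type} [Group G] {r : ℕ} {i : Fin r} {κ : G} {x : Fin r → G} :
    x ∈ cyl G i κ ↔ x i ∈ Subgroup.zpowers κ := Iff.rfl

/-- there are `r` pairwise inequivalent, non-cyclic locally flat functions -/
def Num (G : Type) [Group G] (r : ℕ) (l : List V) : Prop := ∃ T : V → V → (Fin r → G),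
  Flat (ps l)ᶜ T ∧ (∀ i j : Fin r, i ≠ j → ¬ RedOn (dia G i j) (ps l)ᶜ T) ∧
    ∀ (i : Fin r) (κ : G), ¬ RedOn (cyl G i κ) (ps l)ᶜ T

/-- the same for gauge fields -/
def NumD (G : Type) [Group G] (r : ℕ) (w : List Dir) : Prop := ∃ g : Gauge (Fin r → G),
  GF g w ∧ (∀ i j : Fin r, i ≠ j → ¬ Red (dia G i j) g) ∧
    ∀ (i : Fin r) (κ : G), ¬ Red (cyl G i κ) g

theorem num_same {G : Type} [Group G] {r : ℕ} {l l' : List V} (hs : Same l l')
    (h : Num G r l) : Num G r l' := by
  obtain ⟨f, hf⟩ := d_amb l l' hs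
  obtain ⟨T, h1, h2, h3⟩ := h
  refine ⟨fun a b => T (f.symm a) (f.symm b), flat_homeo f hf h1, ?_, ?_⟩
  · intro i j hij hc
    exact h2 i j hij (redOn_homeo f hf hc)
  · intro i κ hc
    exact h3 i κ (redOn_homeo f hf hc)

theorem numD_of {G : Type} [Group G] {r : ℕ} {w : List Dir} (hw : SAP w)
    (h : Num G r (vl w)) : NumD G r w := by
  obtain ⟨T, h1, h2, h3⟩ := h
  obtain ⟨g, hg, hZ⟩ := disc hw h1
  exact ⟨g, hg, fun i j hij hc => h2 i j hij (hZ _ hc), fun i κ hc => h3 i κ (hZ _ hc)⟩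

theorem num_of {G : Type} [Group G] {r : ℕ} {w : List Dir} (hw : SAP w)
    (h : NumD G r w) : Num G r (vl w) := by
  obtain ⟨g, hg, h2, h3⟩ := h
  exact ⟨TT g, d_gauge _ g w hw hg, fun i j hij hc => h2 i j hij (red_of _ g w hw hc),
    fun i κ hc => h3 i κ (red_of _ g w hw hc)⟩

/-- normalized gauge fields are determined by their values near the polygon -/
theorem gauge_ext {G : Type} [Group G] {w : List Dir} {g g' : Gauge G} (hg : GF g w)
    (hg' : GF g' w) (h1 : ∀ c, g.g1 c = 1) (h1' : ∀ c, g'.g1 c = 1)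
    (h2 : ∀ c : Z3, c.1 < 0 → g.g2 c = 1 ∧ g.g3 c = 1)
    (h2' : ∀ c : Z3, c.1 < 0 → g'.g2 c = 1 ∧ g'.g3 c = 1)
    (hv : ∀ q ∈ path w, g.g2 (q - (0, 1, 0)) = g'.g2 (q - (0, 1, 0)) ∧
      g.g3 (q - (0, 0, 1)) = g'.g3 (q - (0, 0, 1))) :
    ∀ c, g.g2 c = g'.g2 c ∧ g.g3 c = g'.g3 c := by
  have hE : ∀ (q : Z3) (f : Dir), Eg w q f → q ∈ path w := by
    rintro q f ⟨a, b, ⟨h3, h4⟩ | ⟨h3, h4⟩⟩
    · rw [h3, ← h4]
      have := K3XNORM.pos_mem_path (a ++ [f]) b
      rwa [List.append_assoc] at this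
    · have h5 : pos (neg f :: b) = q := by
        show pos b + vec (neg f) = q
        rw [h4, vec_neg]
        abel
      rw [h3, ← h5]
      exact K3XNORM.pos_mem_path a _
  have key : ∀ n : ℕ, ∀ c : Z3, c.1 < n → g.g2 c = g'.g2 c ∧ g.g3 c = g'.g3 c := by
    intro n
    induction n with
    | zero =>
      intro c hc
      have hc' : c.1 < 0 := by simpa using hc
      rw [(h2 c hc').1, (h2 c hc').2, (h2' c hc').1, (h2' c hc').2]
      exact ⟨rfl, rfl⟩
    | succ n ih =>
      intro c hc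
      have ihc := ih (c - (1, 0, 0)) (by
        have : ((n + 1 : ℕ) : ℤ) = n + 1 := by push_cast; ring
        rw [this] at hc
        show c.1 - 1 < n
        omega)
      constructor
      · by_cases hq : c + (0, 1, 0) ∈ path w
        · have := (hv _ hq).1
          rwa [add_sub_cancel_right] at this
        · have e : ∀ G' : Gauge G, GF G' w → (∀ c, G'.g1 c = 1) →
              G'.g2 c = G'.g2 (c - (1, 0, 0)) := by
            intro G' hG hG1
            have h3 := ((hG (c + (0, 1, 0))).1).resolve_left (fun h => hq (hE _ _ h))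
            unfold Fl12 at h3
            rw [hG1, hG1, one_mul, mul_one] at h3
            have e1 : c + (0, 1, 0) - (0, 1, 0) = c := by abel
            have e2 : c + (0, 1, 0) - (1, 1, 0) = c - (1, 0, 0) := by ext <;> simp
            rw [e1, e2] at h3
            exact h3
          rw [e g hg h1, e g' hg' h1']
          exact ihc.1
      · by_cases hq : c + (0, 0, 1) ∈ path w
        · have := (hv _ hq).2
          rwa [add_sub_cancel_right] at this
        · have e : ∀ G' : Gauge G, GF G' w → (∀ c, G'.g1 c = 1) →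
              G'.g3 c = G'.g3 (c - (1, 0, 0)) := by
            intro G' hG hG1
            have h3 := ((hG (c + (0, 0, 1))).2.1).resolve_left (fun h => hq (hE _ _ h))
            unfold Fl13 at h3
            rw [hG1, hG1, one_mul, mul_one] at h3
            have e1 : c + (0, 0, 1) - (0, 0, 1) = c := by abel
            have e2 : c + (0, 0, 1) - (1, 0, 1) = c - (1, 0, 0) := by ext <;> simp
            rw [e1, e2] at h3
            exact h3
          rw [e g hg h1, e g' hg' h1']
          exact ihc.2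
  intro c
  refine key (c.1.toNat + 1) c ?_
  push_cast
  have := Int.self_le_toNat c.1
  omega

/-- the component of a gauge field -/
def cmp {G : Type} [Group G] {r : ℕ} (g : Gauge (Fin r → G)) (i : Fin r) : Gauge G where
  g1 := fun c => g.g1 c i
  g2 := fun c => g.g2 c i
  g3 := fun c => g.g3 c i

theorem gf_cmp {G : Type} [Group G] {r : ℕ} {g : Gauge (Fin r → G)} {w : List Dir} (h : GF g w)
    (i : Fin r) : GF (cmp g i) w := by
  intro q
  obtain ⟨h1, h2, h3⟩ := h q
  have c1 : Fl12 g q → Fl12 (cmp g i) q := fun h => by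
    unfold Fl12 at h
    exact congrFun h i
  have c2 : Fl13 g q → Fl13 (cmp g i) q := fun h => by
    unfold Fl13 at h
    exact congrFun h i
  have c3 : Fl23 g q → Fl23 (cmp g i) q := fun h => by
    unfold Fl23 at h
    exact congrFun h i
  exact ⟨h1.imp id c1, h2.imp id c2, h3.imp id c3⟩

theorem gst_cmp {G : Type} [Group G] {r : ℕ} (g : Gauge (Fin r → G)) (i : Fin r) (c : Z3)
    (d : Dir) : gst (cmp g i) c d = gst g c d i := by
  cases d <;> rfl

/-- the number is bounded -/
theorem bounded (G : Type) [Group G] [Finite G] {v : List Dir}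
    (hv : ∀ p ∈ path v, 0 ≤ p.1) (_hS : SAP (.zm :: v)) :
    ∃ R : ℕ, ∀ r : ℕ, NumD G r (.zm :: v) → r ≤ R := by
  have : Fintype G := Fintype.ofFinite G
  refine ⟨Fintype.card ({q : Z3 // q ∈ (path (Dir.zm :: v)).toFinset} → G × G), ?_⟩
  rintro r ⟨g, hg, h2, -⟩
  obtain ⟨g', h3, h4, h5, h6⟩ := norm g v hv hg
  by_contra hr
  push Not at hr
  obtain ⟨i, j, hij, he⟩ := Fintype.exists_ne_map_eq_of_card_lt
    (fun (i : Fin r) (q : {q : Z3 // q ∈ (path (Dir.zm :: v)).toFinset}) =>
      (((cmp g' i).g2 (q.1 - (0, 1, 0)), (cmp g' i).g3 (q.1 - (0, 0, 1))) : G × G))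
    (by rw [Fintype.card_fin]; exact hr)
  have h7 := gauge_ext (gf_cmp h3 i) (gf_cmp h3 j) (fun c => congrFun (h4 c) i)
    (fun c => congrFun (h4 c) j)
    (fun c hc => ⟨congrFun (h5 c hc).1 i, congrFun (h5 c hc).2 i⟩)
    (fun c hc => ⟨congrFun (h5 c hc).1 j, congrFun (h5 c hc).2 j⟩) (by
      intro q hq
      have := congrFun he ⟨q, List.mem_toFinset.2 hq⟩
      simp only [Prod.mk.injEq] at this
      exact this)
  apply h2 i j hij
  apply h6
  refine ⟨fun _ => 1, fun c d => ?_⟩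
  rw [one_mul, inv_one, mul_one, mem_dia, ← gst_cmp, ← gst_cmp]
  have e1 : ∀ c, (cmp g' i).g1 c = (cmp g' j).g1 c := fun c => by
    show g'.g1 c i = g'.g1 c j
    rw [h4 c]
    rfl
  cases d
  · exact e1 c
  · show ((cmp g' i).g1 _)⁻¹ = ((cmp g' j).g1 _)⁻¹
    rw [e1]
  · exact (h7 c).1
  · show ((cmp g' i).g2 _)⁻¹ = ((cmp g' j).g2 _)⁻¹
    rw [(h7 _).1]
  · exact (h7 c).2
  · show ((cmp g' i).g3 _)⁻¹ = ((cmp g' j).g3 _)⁻¹
    rw [(h7 _).2]

/-- the number is bounded for every polygon -/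
theorem num_bounded (G : Type) [Group G] [Finite G] {k : List V}
    (hk : ∃ w, SAP w ∧ Same (vl w) k) : ∃ R : ℕ, ∀ r : ℕ, Num G r k → r ≤ R := by
  obtain ⟨L, v, hv, hs⟩ := T_vex_proof k hk
  obtain ⟨R, hR⟩ := bounded G (fun p hp => (hv.2 p hp).1) hv.1
  exact ⟨R, fun r h => hR r (numD_of hv.1 (num_same hs.symm h))⟩

end KNB
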