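import Pool.Agent.L5helper86.KB.Typ

/-!
# Lattice knots: polygons with many disjoint blocks
-/

set_option autoImplicit false

namespace KNB

open Finset Filter Topology KN
open scoped Classical

noncomputable section

open K3YOVER (EZ_append EZ_cons BZ_append BZ_cons blk_pos blk_le)

/-- a block of shape `x` in the word `u` -/
def Emb (T L : ℕ) (x u A : List Dir) (d f : Dir) (B : List Dir) : Prop :=
  u = A ++ (blk T x).map (rt d f) ++ B ∧ perp d f ∧ RmD T L d f (A ++ f :: B) (pos B)

theorem blk_two (T : ℕ) (v : List Dir) : 2 ≤ (blk T v).length := by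
  simp only [blk, List.length_append, List.length_replicate]
  omega

/-- a word of symbols that is as long as its expansion has no blocks -/
theorem lab_nil_of {T : ℕ} {v : ℕ → List Dir} : ∀ C : List Sz, (EZ T v C).length ≤ C.length →
    lab C = [] := by
  have hge : ∀ C : List Sz, C.length ≤ (EZ T v C).length := by
    intro C
    induction C with
    | nil => simp
    | cons s C ih =>
      rw [EZ_cons, List.length_append, List.length_cons]
      have := K3YCON.szw_len T v s
      omega
  intro C
  induction C with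
  | nil => intro _; rfl
  | cons s C ih =>
    intro h
    rw [EZ_cons, List.length_append, List.length_cons] at h
    have h1 := hge C
    cases s with
    | lt f =>
      rw [K3YOVER.len_lt] at h
      rw [K3YTYPE.lab_lt]
      exact ih (by omega)
    | bl i d f =>
      rw [K3YOVER.len_bl] at h
      have h2 := blk_two T (v i)
      omega

/-- several disjoint blocks in a word -/
theorem combine (T L : ℕ) (x u : List Dir) (A B : ℕ → List Dir) (d f : ℕ → Dir) (r : ℕ) :
    (∀ j < r, Emb T L x u (A j) (d j) (f j) (B j)) →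
    (∀ j < r, ∀ j' < r, j ≠ j' → (A j).length + (blk T x).length ≤ (A j').length ∨
      (A j').length + (blk T x).length ≤ (A j).length) →
    ∃ Z : List Sz, EZ T (fun _ => x) Z = u ∧ (lab Z).Perm (List.range r) ∧
      ∀ (A' B' : List Sz) (j : ℕ) (d' f' : Dir), Z = A' ++ .bl j d' f' :: B' →
        j < r ∧ EZ T (fun _ => x) A' = A j ∧ EZ T (fun _ => x) B' = B j ∧ d' = d j ∧ f' = f j := by
  induction r with
  | zero =>
    intro _ _
    refine ⟨u.map Sz.lt, K3YZERO.EZ_map _ _ _, ?_, ?_⟩
    · rw [K3YZERO.lab_map]; rfl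
    · intro A' B' j d' f' h
      exfalso
      have h4 : lab (u.map Sz.lt) = [] := K3YZERO.lab_map u
      rw [h, K3YTYPE.lab_append, K3YTYPE.lab_bl] at h4
      simp at h4
  | succ r ih =>
    intro hE hd
    obtain ⟨Z, hZ, hlab, hsp⟩ := ih (fun j hj => hE j (by omega))
      (fun j hj j' hj' => hd j (by omega) j' (by omega))
    obtain ⟨hu, hperp, hroom⟩ := hE r (Nat.lt_succ_self r)
    have hI : 0 < ((blk T x).map (rt (d r) (f r))).length := by
      rw [List.length_map]; exact blk_pos T x
    obtain ⟨X, C, Y, hXCY, hX, hY, hC⟩ := K3YOVER.main T (fun _ => x) Z (A r)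
      ((blk T x).map (rt (d r) (f r))) (B r) hI (by rw [hZ, hu]) (by
        intro A' B' j d' f' h hc
        obtain ⟨h1, h2, -⟩ := hsp A' B' j d' f' h
        rw [h2, List.length_map] at hc
        have := hd j (by omega) r (Nat.lt_succ_self r) (by omega)
        omega)
    have hEC : (EZ T (fun _ => x) C).length = C.length := by
      have h1 := congrArg List.length (hZ.trans hu)
      rw [hXCY, EZ_append, EZ_append, hX, hY] at h1
      simp only [List.length_append] at h1
      have h2 : (BZ C).length = C.length := by simp [BZ]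
      rw [hC] at h2
      omega
    have hlC := lab_nil_of C hEC.le
    have hEC' : EZ T (fun _ => x) C = (blk T x).map (rt (d r) (f r)) := by
      rw [← hC]
      exact K3YTYPE.EZ_nil C hlC
    have hb : EZ T (fun _ => x) [Sz.bl r (d r) (f r)] = (blk T x).map (rt (d r) (f r)) := by
      simp [EZ, szw]
    refine ⟨X ++ .bl r (d r) (f r) :: Y, ?_, ?_, ?_⟩
    · rw [EZ_append, EZ_cons, hX, hY, hu]
      simp [szw]
    · rw [K3YTYPE.lab_append, K3YTYPE.lab_bl]
      have h1 : lab Z = lab X ++ lab Y := by
        rw [hXCY, K3YTYPE.lab_append, K3YTYPE.lab_append, hlC, List.append_nil]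
      rw [h1] at hlab
      rw [List.range_succ]
      exact List.perm_middle.trans ((hlab.cons r).trans (List.perm_append_singleton r _).symm)
    · intro A' B' j d' f' h
      rcases K3YINS.decomp X Y A' B' _ _ h with ⟨rfl, hs, rfl⟩ | ⟨A2, hA, hB1⟩ | ⟨B2, hB, hA1⟩
      · simp only [Sz.bl.injEq] at hs
        obtain ⟨rfl, rfl, rfl⟩ := hs
        exact ⟨Nat.lt_succ_self _, hX, hY, rfl, rfl⟩
      · obtain ⟨h1, h2, h3, h4, h5⟩ := hsp A' (A2 ++ C ++ Y) j d' f' (by rw [hXCY, hA]; simp)
        refine ⟨by omega, h2, ?_, h4, h5⟩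
        rw [← h3, hB1]
        simp only [EZ_append, EZ_cons, hEC']
        simp [szw]
      · obtain ⟨h1, h2, h3, h4, h5⟩ := hsp (X ++ C ++ B2) B' j d' f' (by rw [hXCY, hB]; simp)
        refine ⟨by omega, ?_, h3, h4, h5⟩
        rw [← h2, hA1]
        simp only [EZ_append, EZ_cons, hEC']
        simp [szw]

/-- a polygon with `r` disjoint blocks is a connected sum with `r` summands -/
theorem emb_sum {k k1 : List V} {T L : ℕ} {x u : List Dir} (hx : SmR L x)
    (hk1 : Same (vl (.zm :: x)) k1) (hu : SAP u) (huk : Same (vl u) k) (A B : ℕ → List Dir)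
    (d f : ℕ → Dir) (r : ℕ) (hE : ∀ j < r, Emb T L x u (A j) (d j) (f j) (B j))
    (hd : ∀ j < r, ∀ j' < r, j ≠ j' → (A j).length + (blk T x).length ≤ (A j').length ∨
      (A j').length + (blk T x).length ≤ (A j).length)
    (hlen : r * (blk T x).length + 4 ≤ u.length) :
    ∃ k' : List V, (∃ w, SAP w ∧ Same (vl w) k') ∧ SumQ k' (fun _ => k1) r k := by
  obtain ⟨Z, hZ, hlab, hsp⟩ := combine T L x u A B d f r hE hd
  have hv : SmB L (blk 0 x).length (fun _ => x) := fun _ => ⟨hx, le_refl _⟩
  have hb := e_bas T L _ _ hv Z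
  have hlen' : 4 ≤ Z.length := by
    have h1 := hb.2.2.1
    rw [hZ] at h1
    have h2 : ((lab Z).map (fun _ => (blk T x).length - 1)).sum = r * ((blk T x).length - 1) := by
      rw [(hlab.map _).sum_eq]
      simp
    rw [h2] at h1
    have h3 : r * ((blk T x).length - 1) ≤ r * (blk T x).length :=
      Nat.mul_le_mul_left _ (Nat.sub_le _ _)
    omega
  have hbase : SAP (BZ Z) := hb.2.2.2.1 (by rw [hZ]; exact hu) hlen'
  have hval : VaQ (vl (BZ Z)) T L (fun _ => x) Z := by
    refine ⟨Same.refl _, hbase, by rw [hZ]; exact hu, ?_⟩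
    intro A' B' j d' f' h
    obtain ⟨h1, h2, h3, rfl, rfl⟩ := hsp A' B' j d' f' h
    obtain ⟨-, g1, g2⟩ := hE j h1
    rw [h2, h3]
    exact ⟨g1, g2⟩
  refine ⟨vl (BZ Z), ⟨BZ Z, hbase, Same.refl _⟩, ?_⟩
  have h4 := typ (k := vl (BZ Z)) (ks := fun _ => k1) hv r (fun _ _ => hk1) Z hlab hval
  rw [hZ] at h4
  exact sumQ_same h4 huk

end

end KNB
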