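import Pool.Agent.L5helper86.KB.Succ

/-!
# Knots whose group has a finite non-commutative quotient, adapted from
`Pool/Agent/H246K3/XNCG.lean`
-/

set_option autoImplicit false

namespace KNB

open Filter Topology CategoryTheory KN
open scoped unitInterval

open K3XNCG (W W_comp W_id TS TS_flat cl cl_trans cl_refl cl_eq conv_hom sgp sgp_mem)

section holonomy

variable {P : V → Prop} (hP : IsOpen {x | P x}) (x0 : {x : V // P x}) {G : Type} [Group G]
  (f : End (FundamentalGroupoid.mk x0) →* G) (φ : V → G) (κ : G)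

/-- cyclic holonomy of a morphism -/
def PP {a b : {x : V // P x}} (m : FundamentalGroupoid.mk a ⟶ FundamentalGroupoid.mk b) : Prop :=
  φ b.1 * f (W (FundamentalGroupoid.mk x0) m) * (φ a.1)⁻¹ ∈ Subgroup.zpowers κ

theorem PP_comp {a b c : {x : V // P x}}
    (m : FundamentalGroupoid.mk a ⟶ FundamentalGroupoid.mk b)
    (m' : FundamentalGroupoid.mk b ⟶ FundamentalGroupoid.mk c) (h : PP x0 f φ κ m)
    (h' : PP x0 f φ κ m') : PP x0 f φ κ (m ≫ m') := by
  unfold PP at *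
  have := Subgroup.mul_mem _ h' h
  rw [W_comp, map_mul]
  convert this using 1
  group

theorem PP_cancel {a b c : {x : V // P x}}
    (m : FundamentalGroupoid.mk a ⟶ FundamentalGroupoid.mk b)
    (m' : FundamentalGroupoid.mk b ⟶ FundamentalGroupoid.mk c) (h : PP x0 f φ κ (m ≫ m'))
    (h' : PP x0 f φ κ m') : PP x0 f φ κ m := by
  unfold PP at *
  have := Subgroup.mul_mem _ (Subgroup.inv_mem _ h') h
  rw [W_comp, map_mul] at this
  convert this using 1
  group

theorem PP_id (a : {x : V // P x}) : PP x0 f φ κ (𝟙 (FundamentalGroupoid.mk a)) := by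
  unfold PP
  rw [W_id, map_one, mul_one, mul_inv_cancel]
  exact Subgroup.one_mem _

theorem PP_cast {a b a' b' : {x : V // P x}} (p : Path a b) (ha : a' = a) (hb : b' = b)
    (h : PP x0 f φ κ (cl (p.cast ha hb))) : PP x0 f φ κ (cl p) := by
  subst ha hb
  exact h

include hP in
theorem PP_path (hφ : ∀ x, P x → ∃ N ∈ 𝓝 x, ∀ a ∈ N, ∀ b ∈ N,
    φ a * f (TS x0 a b) * (φ b)⁻¹ ∈ Subgroup.zpowers κ) {a b : {x : V // P x}} (p : Path a b) :
    PP x0 f φ κ (cl p) := by
  have hloc : ∀ t0 : I, ∃ U ∈ 𝓝 t0, ∀ s ∈ U, PP x0 f φ κ (cl (p.subpath t0 s)) := by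
    intro t0
    obtain ⟨N, hN, hN2⟩ := hφ (p t0).1 (p t0).2
    have hN3 : N ∩ {x | P x} ∈ 𝓝 (p t0).1 := Filter.inter_mem hN (hP.mem_nhds (p t0).2)
    obtain ⟨r, hr, hb⟩ := Metric.mem_nhds_iff.mp hN3
    have hcont : Continuous (fun t : I => (p t).1) := by fun_prop
    have hU : (fun t : I => (p t).1) ⁻¹' Metric.ball (p t0).1 r ∈ 𝓝 t0 :=
      hcont.continuousAt (Metric.ball_mem_nhds _ hr)
    obtain ⟨ε, hε, hb2⟩ := Metric.mem_nhds_iff.mp hU
    refine ⟨Metric.ball t0 ε, Metric.ball_mem_nhds _ hε, ?_⟩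
    intro s hs
    have hC : Convex ℝ (Metric.ball (p t0).1 r) := convex_ball _ _
    have hs0 : (p t0).1 ∈ Metric.ball (p t0).1 r := Metric.mem_ball_self hr
    have hs1 : (p s).1 ∈ Metric.ball (p t0).1 r := hb2 hs
    have hmem : ∀ v, ((p.subpath t0 s) v).1 ∈ Metric.ball (p t0).1 r := by
      intro v
      have h1 : (p.subpath t0 s) v ∈ Set.range (p.subpath t0 s) := ⟨v, rfl⟩
      rw [Path.range_subpath] at h1
      obtain ⟨u, hu, hu2⟩ := h1
      rw [← hu2]
      apply hb2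
      rw [Metric.mem_ball] at hs ⊢
      refine lt_of_le_of_lt ?_ hs
      rw [Subtype.dist_eq, Subtype.dist_eq, Real.dist_eq, Real.dist_eq]
      rcases Set.mem_uIcc.mp hu with ⟨h1, h2⟩ | ⟨h1, h2⟩
      · have h1' : (t0 : ℝ) ≤ u := h1
        have h2' : (u : ℝ) ≤ s := h2
        rw [abs_of_nonneg (by linarith), abs_of_nonneg (by linarith)]
        linarith
      · have h1' : (s : ℝ) ≤ u := h1
        have h2' : (u : ℝ) ≤ t0 := h2
        rw [abs_of_nonpos (by linarith), abs_of_nonpos (by linarith)]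
        linarith
    have hseg : ∀ x ∈ segment ℝ (p t0).1 (p s).1, P x :=
      fun y hy => (hb (hC.segment_subset hs0 hs1 hy)).2
    have h2 : cl (p.subpath t0 s) = cl (sgp (p t0) (p s) hseg) := by
      apply cl_eq
      apply conv_hom (Metric.ball (p t0).1 r) hC (fun y hy => (hb hy).2) _ _ hmem
      intro t
      exact sgp_mem _ _ _ _ hC hs0 hs1 t
    rw [h2]
    have h3 := hN2 (p s).1 (hb hs1).1 (p t0).1 (hb hs0).1
    unfold TS at h3
    rw [dif_pos hseg] at h3
    exact h3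
  have hiff : ∀ t0 : I, ∃ U ∈ 𝓝 t0, ∀ s ∈ U,
      (PP x0 f φ κ (cl (p.subpath 0 s)) ↔ PP x0 f φ κ (cl (p.subpath 0 t0))) := by
    intro t0
    obtain ⟨U, hU, hU2⟩ := hloc t0
    refine ⟨U, hU, fun s hs => ?_⟩
    have h1 : cl (p.subpath 0 s) = cl (p.subpath 0 t0) ≫ cl (p.subpath t0 s) := by
      rw [← cl_trans]
      exact (cl_eq ⟨Path.Homotopy.subpathTransSubpath p 0 t0 s⟩).symm
    rw [h1]
    exact ⟨fun h => PP_cancel x0 f φ κ _ _ h (hU2 s hs), fun h => PP_comp x0 f φ κ _ _ h (hU2 s hs)⟩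
  have hclopen : IsClopen {t : I | PP x0 f φ κ (cl (p.subpath 0 t))} := by
    constructor
    · rw [← isOpen_compl_iff, isOpen_iff_mem_nhds]
      intro t0 ht0
      obtain ⟨U, hU, hU2⟩ := hiff t0
      filter_upwards [hU] with s hs
      intro h
      exact ht0 ((hU2 s hs).mp h)
    · rw [isOpen_iff_mem_nhds]
      intro t0 ht0
      obtain ⟨U, hU, hU2⟩ := hiff t0
      filter_upwards [hU] with s hs
      exact (hU2 s hs).mpr ht0
  have h0 : (0 : I) ∈ {t : I | PP x0 f φ κ (cl (p.subpath 0 t))} := by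
    show PP x0 f φ κ (cl (p.subpath 0 0))
    rw [Path.subpath_self, cl_refl]
    exact PP_id x0 f φ κ _
  have h1 := hclopen.eq_univ ⟨0, h0⟩
  have h2 : (1 : I) ∈ {t : I | PP x0 f φ κ (cl (p.subpath 0 t))} := by rw [h1]; trivial
  have h3 : PP x0 f φ κ (cl (p.subpath 0 1)) := h2
  rw [Path.subpath_zero_one] at h3
  exact PP_cast x0 f φ κ p _ _ h3

end holonomy


theorem fW {C : Type} [Groupoid C] (x0 : C) {G : Type} [Group G] (f : End x0 →* G) :
    ∃ s : G, ∀ m : End x0, f (W x0 (m : x0 ⟶ x0)) = s * f m * s⁻¹ := by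
  by_cases h : Nonempty (x0 ⟶ x0) ∧ Nonempty (x0 ⟶ x0)
  · have e : ∀ m : End x0, W x0 (m : x0 ⟶ x0) =
        (h.1.some ≫ m ≫ Groupoid.inv h.2.some : x0 ⟶ x0) := by
      intro m
      unfold K3XNCG.W
      rw [dif_pos h]
    set u : End x0 := (h.1.some : x0 ⟶ x0) with hu
    set u' : End x0 := (Groupoid.inv h.2.some : x0 ⟶ x0) with hu'
    have e2 : ∀ m : End x0, W x0 (m : x0 ⟶ x0) = u' * m * u := by
      intro m
      rw [e, End.mul_def, End.mul_def]
    have e3 : u' * u = 1 := by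
      rw [End.mul_def, hu, hu', End.one_def]
      exact Groupoid.comp_inv _
    refine ⟨f u', fun m => ?_⟩
    have e4 : f u' * f u = 1 := by rw [← map_mul, e3, map_one]
    have e5 : f u = (f u')⁻¹ := (inv_eq_of_mul_eq_one_right e4).symm
    rw [e2, map_mul, map_mul, e5]
  · exact absurd ⟨⟨𝟙 x0⟩, ⟨𝟙 x0⟩⟩ h

/-- a finite non-commutative quotient gives a locally flat function -/
theorem fq_field {l : List V} (h : FQ l) : ∃ (G : Type) (_ : Group G) (_ : Finite G)
    (T : V → V → G), Flat (ps l)ᶜ T ∧ ∀ κ : G, ¬ RedOn (Subgroup.zpowers κ) (ps l)ᶜ T := by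
  obtain ⟨x0, G, iG, iF, f, a, b, hab⟩ := h
  have hl : IsOpen (ps l)ᶜ := X_open_proof l
  let f' : End (FundamentalGroupoid.mk x0) →* G := f
  refine ⟨G, iG, iF, fun a b => f' (TS x0 a b), ?_, ?_⟩
  · intro x hx
    obtain ⟨N, hN, h1⟩ := TS_flat hl x0 x hx
    refine ⟨N, hN, fun a ha b hb c hc => ?_⟩
    rw [← map_mul, h1 a ha b hb c hc]
  · rintro κ ⟨φ, hφ⟩
    apply hab
    have key : ∀ c : FundamentalGroup (Cmp l) x0,
        PP x0 f' φ κ (c : FundamentalGroupoid.mk x0 ⟶ FundamentalGroupoid.mk x0) := by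
      intro c
      obtain ⟨p, rfl⟩ := Path.Homotopic.Quotient.mk_surjective c
      exact PP_path hl x0 f' φ κ (fun x hx => hφ x hx) p
    obtain ⟨s, hs⟩ := fW (FundamentalGroupoid.mk x0) f'
    have h1 := key a
    have h2 := key b
    unfold PP at h1 h2
    have h1' : φ x0.1 * (s * f a * s⁻¹) * (φ x0.1)⁻¹ ∈ Subgroup.zpowers κ := by
      rw [← show f' (W (FundamentalGroupoid.mk x0) a) = s * f a * s⁻¹ from hs a]
      exact h1
    have h2' : φ x0.1 * (s * f b * s⁻¹) * (φ x0.1)⁻¹ ∈ Subgroup.zpowers κ := by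
      rw [← show f' (W (FundamentalGroupoid.mk x0) b) = s * f b * s⁻¹ from hs b]
      exact h2
    have h3 : Commute (φ x0.1 * (s * f a * s⁻¹) * (φ x0.1)⁻¹)
        (φ x0.1 * (s * f b * s⁻¹) * (φ x0.1)⁻¹) := by
      obtain ⟨m, hm⟩ := Subgroup.mem_zpowers_iff.mp h1'
      obtain ⟨n, hn⟩ := Subgroup.mem_zpowers_iff.mp h2'
      rw [← hm, ← hn]
      exact (Commute.refl κ).zpow_zpow m n
    have h5 : (φ x0.1 * s) * (f a * f b) * (φ x0.1 * s)⁻¹ =
        (φ x0.1 * s) * (f b * f a) * (φ x0.1 * s)⁻¹ := by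
      have := h3.eq
      convert this using 1 <;> group
    exact mul_left_cancel (mul_right_cancel h5)

/-- only finitely many summands -/
theorem fin1_of {k k1 : List V} (hk : ∃ w, SAP w ∧ Same (vl w) k) (h : FQ k1) : Fin1 k k1 := by
  obtain ⟨G, iG, iF, T, hT, hTn⟩ := fq_field h
  obtain ⟨R, hR⟩ := num_bounded G hk
  refine ⟨R + 1, fun k' _ hs => ?_⟩
  have key : ∀ (m : ℕ) (l : List V), SumQ k' (fun _ => k1) m l → Num G m l := by
    intro m
    induction m with
    | zero =>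
      intro l _
      refine ⟨fun _ _ _ => 1, ?_, fun i => i.elim0, fun i => i.elim0⟩
      intro x _
      refine ⟨Set.univ, Filter.univ_mem, fun a _ b _ c _ => ?_⟩
      funext i
      exact i.elim0
    | succ m ih =>
      rintro l ⟨l1, v, l2, hF, h1, h2, h3⟩
      refine num_same h3.symm (num_succ hF (ih _ h1) ?_)
      obtain ⟨e, he⟩ := d_amb k1 (vl (.zm :: v)) h2.symm
      exact ⟨fun a b => T (e.symm a) (e.symm b), flat_homeo e he hT,
        fun κ hc => hTn κ (redOn_homeo e he hc)⟩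
  have := hR _ (key _ _ hs)
  omega

end KNB
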