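import Pool.Agent.L5helper86.KB.All

/-!
# Gauge fields with transports in a subgroup, adapted from `Pool/Agent/H246K3/X*.lean`
-/

set_option autoImplicit false

namespace KNB

open Filter Topology KN

/-- after a gauge transformation all transports are in the subgroup -/
def Red {G : Type} [Group G] (Z : Subgroup G) (g : Gauge G) : Prop := ∃ φ : Z3 → G,
  ∀ (c : Z3) (d : Dir), φ c * gst g c d * (φ (c + vec d))⁻¹ ∈ Z

/-- the same for locally flat functions -/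
def RedOn {G : Type} [Group G] (Z : Subgroup G) (X : Set V) (T : V → V → G) : Prop :=
  ∃ φ : V → G, ∀ x ∈ X, ∃ N ∈ 𝓝 x, ∀ a ∈ N, ∀ b ∈ N, φ a * T a b * (φ b)⁻¹ ∈ Z

open K3XDISC in
/-- discretization of a locally flat function -/
theorem disc {G : Type} [Group G] {T : V → V → G} {w : List Dir} (hw : SAP w)
    (hfl : Flat (ps (vl w))ᶜ T) : ∃ g : Gauge G, GF g w ∧
      ∀ Z : Subgroup G, Red Z g → RedOn Z (ps (vl w))ᶜ T := by
  have hconv := d_convex
  have hpot := T_pot2_proof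
  have hbox := X_box_proof
  have hsub : ∀ q m, Good w q m → Bx q m ⊆ (ps (vl w))ᶜ := fun q m h x hx =>
    hbox w hw q m h.a1 h.a2 h.a3 h.e12 h.e13 h.e23 x hx
  have hψ : ∀ q m, Good w q m → ∃ ψ, Pot (Bx q m) T ψ := fun q m h =>
    hconv G _ T hfl (Bx q m) (Bx_open q m) (Bx_convex q m) (hsub q m h)
  obtain ⟨D, hD⟩ := exists_D hpot T w
  let g : Gauge G := ⟨fun c => D (mc c) (mc (c + (1, 0, 0))), fun c => D (mc c) (mc (c + (0, 1, 0))),
    fun c => D (mc c) (mc (c + (0, 0, 1)))⟩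
  have G1 : ∀ (q m : Z3) (ψ : V → G), Good w q m → Pot (Bx q m) T ψ → ∀ c c' : Z3,
      c + (1, 0, 0) = c' → inb q m c → inb q m c' → g.g1 c = (ψ (mc c))⁻¹ * ψ (mc c') := by
    intro q m ψ h1 h2 c c' h3 h4 h5
    subst h3
    exact hD q m ψ h1 h2 _ (mc_mem h4) _ (mc_mem h5)
  have G2 : ∀ (q m : Z3) (ψ : V → G), Good w q m → Pot (Bx q m) T ψ → ∀ c c' : Z3,
      c + (0, 1, 0) = c' → inb q m c → inb q m c' → g.g2 c = (ψ (mc c))⁻¹ * ψ (mc c') := by
    intro q m ψ h1 h2 c c' h3 h4 h5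
    subst h3
    exact hD q m ψ h1 h2 _ (mc_mem h4) _ (mc_mem h5)
  have G3 : ∀ (q m : Z3) (ψ : V → G), Good w q m → Pot (Bx q m) T ψ → ∀ c c' : Z3,
      c + (0, 0, 1) = c' → inb q m c → inb q m c' → g.g3 c = (ψ (mc c))⁻¹ * ψ (mc c') := by
    intro q m ψ h1 h2 c c' h3 h4 h5
    subst h3
    exact hD q m ψ h1 h2 _ (mc_mem h4) _ (mc_mem h5)
  refine ⟨g, ?_, ?_⟩
  · intro q
    refine ⟨?_, ?_, ?_⟩
    · by_cases h : Eg w q .zp
      · exact Or.inl h
      · right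
        have hg : Good w q (1, 1, 0) := ⟨Or.inr rfl, Or.inr rfl, Or.inl rfl,
          fun _ _ => ⟨h, fun h0 => absurd h0 (by decide)⟩, fun _ h0 => absurd h0 (by decide),
          fun _ h0 => absurd h0 (by decide)⟩
        obtain ⟨ψ, hψ1⟩ := hψ q _ hg
        unfold Fl12
        rw [G1 q _ ψ hg hψ1 (q - (1, 1, 0)) (q - (0, 1, 0)) (by ext <;> simp)
            (by refine ⟨?_, ?_, ?_, ?_, ?_, ?_⟩ <;> simp) (by refine ⟨?_, ?_, ?_, ?_, ?_, ?_⟩ <;> simp),
          G2 q _ ψ hg hψ1 (q - (0, 1, 0)) q (by ext <;> simp)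
            (by refine ⟨?_, ?_, ?_, ?_, ?_, ?_⟩ <;> simp) (by refine ⟨?_, ?_, ?_, ?_, ?_, ?_⟩ <;> simp),
          G2 q _ ψ hg hψ1 (q - (1, 1, 0)) (q - (1, 0, 0)) (by ext <;> simp)
            (by refine ⟨?_, ?_, ?_, ?_, ?_, ?_⟩ <;> simp) (by refine ⟨?_, ?_, ?_, ?_, ?_, ?_⟩ <;> simp),
          G1 q _ ψ hg hψ1 (q - (1, 0, 0)) q (by ext <;> simp)
            (by refine ⟨?_, ?_, ?_, ?_, ?_, ?_⟩ <;> simp) (by refine ⟨?_, ?_, ?_, ?_, ?_, ?_⟩ <;> simp)]
        group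
    · by_cases h : Eg w q .yp
      · exact Or.inl h
      · right
        have hg : Good w q (1, 0, 1) := ⟨Or.inr rfl, Or.inl rfl, Or.inr rfl,
          fun _ h0 => absurd h0 (by decide), fun _ _ => ⟨h, fun h0 => absurd h0 (by decide)⟩,
          fun h0 => absurd h0 (by decide)⟩
        obtain ⟨ψ, hψ1⟩ := hψ q _ hg
        unfold Fl13
        rw [G1 q _ ψ hg hψ1 (q - (1, 0, 1)) (q - (0, 0, 1)) (by ext <;> simp)
            (by refine ⟨?_, ?_, ?_, ?_, ?_, ?_⟩ <;> simp) (by refine ⟨?_, ?_, ?_, ?_, ?_, ?_⟩ <;> simp),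
          G3 q _ ψ hg hψ1 (q - (0, 0, 1)) q (by ext <;> simp)
            (by refine ⟨?_, ?_, ?_, ?_, ?_, ?_⟩ <;> simp) (by refine ⟨?_, ?_, ?_, ?_, ?_, ?_⟩ <;> simp),
          G3 q _ ψ hg hψ1 (q - (1, 0, 1)) (q - (1, 0, 0)) (by ext <;> simp)
            (by refine ⟨?_, ?_, ?_, ?_, ?_, ?_⟩ <;> simp) (by refine ⟨?_, ?_, ?_, ?_, ?_, ?_⟩ <;> simp),
          G1 q _ ψ hg hψ1 (q - (1, 0, 0)) q (by ext <;> simp)
            (by refine ⟨?_, ?_, ?_, ?_, ?_, ?_⟩ <;> simp) (by refine ⟨?_, ?_, ?_, ?_, ?_, ?_⟩ <;> simp)]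
        group
    · by_cases h : Eg w q .xp
      · exact Or.inl h
      · right
        have hg : Good w q (0, 1, 1) := ⟨Or.inl rfl, Or.inr rfl, Or.inr rfl,
          fun h0 => absurd h0 (by decide), fun h0 => absurd h0 (by decide),
          fun _ _ => ⟨h, fun h0 => absurd h0 (by decide)⟩⟩
        obtain ⟨ψ, hψ1⟩ := hψ q _ hg
        unfold Fl23
        rw [G2 q _ ψ hg hψ1 (q - (0, 1, 1)) (q - (0, 0, 1)) (by ext <;> simp)
            (by refine ⟨?_, ?_, ?_, ?_, ?_, ?_⟩ <;> simp) (by refine ⟨?_, ?_, ?_, ?_, ?_, ?_⟩ <;> simp),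
          G3 q _ ψ hg hψ1 (q - (0, 0, 1)) q (by ext <;> simp)
            (by refine ⟨?_, ?_, ?_, ?_, ?_, ?_⟩ <;> simp) (by refine ⟨?_, ?_, ?_, ?_, ?_, ?_⟩ <;> simp),
          G3 q _ ψ hg hψ1 (q - (0, 1, 1)) (q - (0, 1, 0)) (by ext <;> simp)
            (by refine ⟨?_, ?_, ?_, ?_, ?_, ?_⟩ <;> simp) (by refine ⟨?_, ?_, ?_, ?_, ?_, ?_⟩ <;> simp),
          G2 q _ ψ hg hψ1 (q - (0, 1, 0)) q (by ext <;> simp)
            (by refine ⟨?_, ?_, ?_, ?_, ?_, ?_⟩ <;> simp) (by refine ⟨?_, ?_, ?_, ?_, ?_, ?_⟩ <;> simp)]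
        group
  · rintro Z ⟨φ, hcyc⟩
    refine ⟨fun x => φ (cube x) * D (mc (cube x)) x, ?_⟩
    intro x hx
    have hg := good_self w hw x hx
    set q := cube x with hq
    set m : Z3 := (mm x.1, mm x.2.1, mm x.2.2) with hm
    obtain ⟨ψ, hψ1⟩ := hψ q m hg
    obtain ⟨N, hN, hNT⟩ := hψ1 x (self_mem x)
    refine ⟨N ∩ Bx q m, inter_mem hN ((Bx_open q m).mem_nhds (self_mem x)), ?_⟩
    intro a ha b hb
    rw [hNT a ha.1 b hb.1]
    have hca := cube_inb ha.2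
    have hcb := cube_inb hb.2
    show φ (cube a) * D (mc (cube a)) a * ((ψ a)⁻¹ * ψ b) * (φ (cube b) * D (mc (cube b)) b)⁻¹ ∈
      Z
    rw [hD q m ψ hg hψ1 _ (mc_mem hca) a ha.2, hD q m ψ hg hψ1 _ (mc_mem hcb) b hb.2]
    -- the function `F`
    set F : Z3 → G := fun c => φ c * (ψ (mc c))⁻¹ with hF
    have f1 : ∀ c c' : Z3, c + (1, 0, 0) = c' → inb q m c → inb q m c' →
        F c * (F c')⁻¹ ∈ Z := by
      intro c c' h1 h2 h3
      have := hcyc c .xp
      have e : gst g c .xp = (ψ (mc c))⁻¹ * ψ (mc c') := G1 q m ψ hg hψ1 c c' h1 h2 h3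
      have e2 : c + vec .xp = c' := h1
      rw [e, e2] at this
      convert this using 1
      simp only [hF]
      group
    have f2 : ∀ c c' : Z3, c + (0, 1, 0) = c' → inb q m c → inb q m c' →
        F c * (F c')⁻¹ ∈ Z := by
      intro c c' h1 h2 h3
      have := hcyc c .yp
      have e : gst g c .yp = (ψ (mc c))⁻¹ * ψ (mc c') := G2 q m ψ hg hψ1 c c' h1 h2 h3
      have e2 : c + vec .yp = c' := h1
      rw [e, e2] at this
      convert this using 1
      simp only [hF]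
      group
    have f3 : ∀ c c' : Z3, c + (0, 0, 1) = c' → inb q m c → inb q m c' →
        F c * (F c')⁻¹ ∈ Z := by
      intro c c' h1 h2 h3
      have := hcyc c .zp
      have e : gst g c .zp = (ψ (mc c))⁻¹ * ψ (mc c') := G3 q m ψ hg hψ1 c c' h1 h2 h3
      have e2 : c + vec .zp = c' := h1
      rw [e, e2] at this
      convert this using 1
      simp only [hF]
      group
    have hm1 := hg.a1
    have hm2 := hg.a2
    have hm3 := hg.a3
    have key : ∀ c : Z3, inb q m c → F c * (F q)⁻¹ ∈ Z := by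
      rintro ⟨c1, c2, c3⟩ ⟨h1, h2, h3, h4, h5, h6⟩
      simp only at h1 h2 h3 h4 h5 h6
      have s1 : F (c1, c2, c3) * (F (q.1, c2, c3))⁻¹ ∈ Z := by
        by_cases h : c1 = q.1
        · rw [h, mul_inv_cancel]; exact one_mem _
        · apply f1
          · ext <;> simp; omega
          · exact ⟨h1, h2, h3, h4, h5, h6⟩
          · exact ⟨by simp only; omega, le_refl _, h3, h4, h5, h6⟩
      have s2 : F (q.1, c2, c3) * (F (q.1, q.2.1, c3))⁻¹ ∈ Z := by
        by_cases h : c2 = q.2.1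
        · rw [h, mul_inv_cancel]; exact one_mem _
        · apply f2
          · ext <;> simp; omega
          · exact ⟨by simp only; omega, le_refl _, h3, h4, h5, h6⟩
          · exact ⟨by simp only; omega, le_refl _, by simp only; omega, le_refl _, h5, h6⟩
      have s3 : F (q.1, q.2.1, c3) * (F (q.1, q.2.1, q.2.2))⁻¹ ∈ Z := by
        by_cases h : c3 = q.2.2
        · rw [h, mul_inv_cancel]; exact one_mem _
        · apply f3
          · ext <;> simp; omega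
          · exact ⟨by simp only; omega, le_refl _, by simp only; omega, le_refl _, h5, h6⟩
          · exact ⟨by simp only; omega, le_refl _, by simp only; omega, le_refl _,
              by simp only; omega, le_refl _⟩
      have s := mul_mem (mul_mem s1 s2) s3
      have e : F (c1, c2, c3) * (F (q.1, c2, c3))⁻¹ * (F (q.1, c2, c3) * (F (q.1, q.2.1, c3))⁻¹) *
          (F (q.1, q.2.1, c3) * (F (q.1, q.2.1, q.2.2))⁻¹) = F (c1, c2, c3) * (F q)⁻¹ := by
        group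
      rw [e] at s
      exact s
    have := mul_mem (key _ hca) (inv_mem (key _ hcb))
    convert this using 1
    simp only [hF]
    group


open Set in
open K2NONAB in
/-- the step lemma -/
theorem step {G : Type} [Group G] (Z : Subgroup G) (g : Gauge G) (w : List Dir) (hw : SAP w)
    (φ : V → G)
    (hφ : ∀ x ∈ (ps (vl w))ᶜ, ∃ N ∈ 𝓝 x, ∀ a ∈ N, ∀ b ∈ N,
      φ a * TT g a b * (φ b)⁻¹ ∈ Z) (c : Z3) (d : Dir) :
    φ (mid c) * gst g c d * (φ (mid (c + vec d)))⁻¹ ∈ Z := by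
  set F : ℝ → G := fun s => φ (mid c) * gtr g c (cube (gam c d s)) * (φ (gam c d s))⁻¹ with hF
  set cl : ℝ → ℝ := fun s => max 0 (min s 1) with hcl
  have hclc : Continuous cl := by fun_prop
  have hcl0 : ∀ s, 0 ≤ cl s := fun s => le_max_left _ _
  have hcl1 : ∀ s, cl s ≤ 1 := fun s => max_le zero_le_one (min_le_right _ _)
  have hloc : IsLocallyConstant (fun s : ℝ => (F (cl s) ∈ Z : Prop)) := by
    rw [IsLocallyConstant.iff_eventually_eq]
    intro s
    obtain ⟨N, hN, hab⟩ := hφ (gam c d (cl s)) (gam_not_mem w hw c d (cl s))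
    have hcont : Continuous (fun s => gam c d (cl s)) := (gam_cont c d).comp hclc
    filter_upwards [hcont.continuousAt.preimage_mem_nhds hN] with s' hs'
    have h1 := hab _ (mem_of_mem_nhds hN) _ hs'
    have h2 : TT g (gam c d (cl s)) (gam c d (cl s')) =
        (gtr g c (cube (gam c d (cl s))))⁻¹ * gtr g c (cube (gam c d (cl s'))) :=
      gtr_two g c d _ _ (cube_gam c d _ (hcl0 _) (hcl1 _)) (cube_gam c d _ (hcl0 _) (hcl1 _))
    rw [h2] at h1
    have h3 : F (cl s') = F (cl s) * (φ (gam c d (cl s)) *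
        ((gtr g c (cube (gam c d (cl s))))⁻¹ * gtr g c (cube (gam c d (cl s')))) *
        (φ (gam c d (cl s')))⁻¹) := by
      simp only [hF]
      group
    apply propext
    rw [h3]
    exact Subgroup.mul_mem_cancel_right _ h1
  have heq := hloc.apply_eq_of_preconnectedSpace 0 1
  have c0 : cl 0 = 0 := by simp [hcl]
  have c1 : cl 1 = 1 := by simp [hcl]
  have hF0 : F (cl 0) ∈ Z := by
    rw [c0]
    simp only [hF, gam_zero, cube_mid, gtr_self, mul_one, mul_inv_cancel]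
    exact Subgroup.one_mem _
  have hF1 : F (cl 1) ∈ Z := by
    exact cast heq hF0
  rw [c1] at hF1
  simp only [hF, gam_one, cube_mid, gtr_step] at hF1
  exact hF1


open K2NONAB in
/-- from the complement to the lattice -/
theorem red_of {G : Type} [Group G] (Z : Subgroup G) (g : Gauge G) (w : List Dir) (hw : SAP w)
    (h : RedOn Z (ps (vl w))ᶜ (TT g)) : Red Z g := by
  obtain ⟨φ, hφ⟩ := h
  exact ⟨fun c => φ (mid c), fun c d => step Z g w hw φ hφ c d⟩

open K3XNORM in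
theorem red_tr {G : Type} [Group G] (Z : Subgroup G) (g : Gauge G) (ψ : Z3 → G)
    (h : Red Z (tr g ψ)) : Red Z g := by
  obtain ⟨φ, hφ⟩ := h
  refine ⟨fun c => φ c * ψ c, fun c d => ?_⟩
  have h1 := hφ c d
  rw [gst_tr] at h1
  have e : φ c * (ψ c * gst g c d * (ψ (c + vec d))⁻¹) * (φ (c + vec d))⁻¹ =
      φ c * ψ c * gst g c d * (φ (c + vec d) * ψ (c + vec d))⁻¹ := by group
  rw [e] at h1
  exact h1

open K3XNORM in
/-- normalization -/
theorem norm {G : Type} [Group G] (g : Gauge G) (v : List Dir) (hv : ∀ p ∈ path v, 0 ≤ p.1)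
    (hg : GF g (.zm :: v)) : ∃ g' : Gauge G, GF g' (.zm :: v) ∧
    (∀ c, g'.g1 c = 1) ∧ (∀ c : Z3, c.1 < 0 → g'.g2 c = 1 ∧ g'.g3 c = 1) ∧
    ∀ Z : Subgroup G, Red Z g' → Red Z g := by
  -- flatness in the layers below
  have hfl : ∀ q : Z3, q.1 < 0 → Fl12 g q ∧ Fl13 g q ∧ Fl23 g q := by
    intro q hq
    obtain ⟨n1, n2, n3⟩ := not_Eg hv hq
    obtain ⟨h1, h2, h3⟩ := hg q
    exact ⟨h1.resolve_left n1, h2.resolve_left n2, h3.resolve_left n3⟩
  obtain ⟨ω, _, hω⟩ := exists_integ (fun y => g.g2 (-1, y, 0)) 0 1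
  choose χ hχ0 hχ using fun y : ℤ => exists_integ (fun z => g.g3 (-1, y, z)) 0 (ω y)
  choose ρ hρ0 hρ using fun (y z : ℤ) => exists_integ (fun x => g.g1 (x, y, z)) (-1) (χ y z)
  set ψ : Z3 → G := fun c => ρ c.2.1 c.2.2 c.1 with hψ
  have e1 : ∀ c, (tr g ψ).g1 c = 1 := by
    rintro ⟨x, y, z⟩
    show ψ (x, y, z) * g.g1 (x, y, z) * (ψ ((x, y, z) + (1, 0, 0)))⁻¹ = 1
    have h1 : ((x, y, z) : Z3) + (1, 0, 0) = (x + 1, y, z) := by simp
    rw [h1, mul_inv_eq_one]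
    exact (hρ y z x).symm
  have e3 : ∀ y z : ℤ, (tr g ψ).g3 (-1, y, z) = 1 := by
    intro y z
    show ψ (-1, y, z) * g.g3 (-1, y, z) * (ψ ((-1, y, z) + (0, 0, 1)))⁻¹ = 1
    have h1 : ((-1, y, z) : Z3) + (0, 0, 1) = (-1, y, z + 1) := by simp
    rw [h1, mul_inv_eq_one]
    show ρ y z (-1) * g.g3 (-1, y, z) = ρ y (z + 1) (-1)
    rw [hρ0, hρ0, hχ]
  have e20 : ∀ y : ℤ, (tr g ψ).g2 (-1, y, 0) = 1 := by
    intro y
    show ψ (-1, y, 0) * g.g2 (-1, y, 0) * (ψ ((-1, y, 0) + (0, 1, 0)))⁻¹ = 1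
    have h1 : ((-1, y, 0) : Z3) + (0, 1, 0) = (-1, y + 1, 0) := by simp
    rw [h1, mul_inv_eq_one]
    show ρ y 0 (-1) * g.g2 (-1, y, 0) = ρ (y + 1) 0 (-1)
    rw [hρ0, hρ0, hχ0, hχ0, hω]
  have e2 : ∀ y z : ℤ, (tr g ψ).g2 (-1, y, z) = 1 := by
    intro y z
    have hstep : ∀ t : ℤ, (tr g ψ).g2 (-1, y, t + 1) = (tr g ψ).g2 (-1, y, t) := by
      intro t
      have h1 := Fl23_tr ψ (hfl (-1, y + 1, t + 1) (by simp)).2.2
      unfold Fl23 at h1
      have a1 : ((-1, y + 1, t + 1) : Z3) - (0, 1, 1) = (-1, y, t) := by simp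
      have a2 : ((-1, y + 1, t + 1) : Z3) - (0, 0, 1) = (-1, y + 1, t) := by simp
      have a3 : ((-1, y + 1, t + 1) : Z3) - (0, 1, 0) = (-1, y, t + 1) := by simp
      rw [a1, a2, a3, e3, e3, mul_one, one_mul] at h1
      exact h1.symm
    rw [const_of_step (fun t => (tr g ψ).g2 (-1, y, t)) hstep z]
    exact e20 y
  refine ⟨tr g ψ, GF_tr ψ hg, e1, ?_, fun Z => red_tr Z g ψ⟩
  rintro ⟨x, y, z⟩ hx
  have hx' : x < 0 := hx
  constructor
  · rw [const_below (fun t => (tr g ψ).g2 (t, y, z)) ?_ x hx']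
    · exact e2 y z
    · intro t ht
      have h1 := Fl12_tr ψ (hfl (t + 1, y + 1, z) (by show t + 1 < 0; omega)).1
      unfold Fl12 at h1
      have a1 : ((t + 1, y + 1, z) : Z3) - (1, 1, 0) = (t, y, z) := by simp
      have a2 : ((t + 1, y + 1, z) : Z3) - (0, 1, 0) = (t + 1, y, z) := by simp
      rw [a1, a2, e1, e1, mul_one, one_mul] at h1
      exact h1
  · rw [const_below (fun t => (tr g ψ).g3 (t, y, z)) ?_ x hx']
    · exact e3 y z
    · intro t ht
      have h1 := Fl13_tr ψ (hfl (t + 1, y, z + 1) (by show t + 1 < 0; omega)).2.1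
      unfold Fl13 at h1
      have a1 : ((t + 1, y, z + 1) : Z3) - (1, 0, 1) = (t, y, z) := by simp
      have a2 : ((t + 1, y, z + 1) : Z3) - (0, 0, 1) = (t + 1, y, z) := by simp
      rw [a1, a2, e1, e1, mul_one, one_mul] at h1
      exact h1


end KNB
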