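import Pool.Agent.L5helper86.KB.Num

/-!
# Rotation of a connected sum by the angle `π` about the second axis
-/

set_option autoImplicit false
set_option linter.unnecessarySeqFocus false
set_option linter.unusedTactic false
set_option linter.unreachableTactic false

namespace KNB

open Finset Filter Topology KN
open scoped Classical

/-- the rotation -/
abbrev ro : Dir → Dir := rt .xm .zm

theorem ro_ro (d : Dir) : ro (ro d) = d := by cases d <;> rfl

theorem ro_neg (d : Dir) : ro (neg d) = neg (ro d) := by cases d <;> rfl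

/-- the rotation of points -/
def rp (p : Z3) : Z3 := (-p.1, p.2.1, -p.2.2)

theorem rp_add (p q : Z3) : rp (p + q) = rp p + rp q := by
  ext <;> simp [rp] <;> ring

theorem rp_vec (d : Dir) : rp (vec d) = vec (ro d) := by cases d <;> rfl

theorem pos_ro (w : List Dir) : pos (w.map ro) = rp (pos w) := by
  induction w with
  | nil => rfl
  | cons d w ih => rw [List.map_cons, pos, pos, ih, rp_add, rp_vec]

theorem path_ro (w : List Dir) : path (w.map ro) = (path w).map rp := by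
  induction w with
  | nil => rfl
  | cons d w ih =>
    rw [List.map_cons, path, path, List.map_cons, ih, rp_add, rp_vec, pos_ro]

/-- the map of cubes -/
def Sc (y c : Z3) : Z3 := (y.1 - c.1, c.2.1 + y.2.1, y.2.2 - 1 - c.2.2)

/-- the inverse map of cubes -/
def Si (y c : Z3) : Z3 := (y.1 - c.1, c.2.1 - y.2.1, y.2.2 - 1 - c.2.2)

theorem Sc_Si (y c : Z3) : Sc y (Si y c) = c := by
  ext <;> simp [Sc, Si]

theorem Sc_add (y c : Z3) (d : Dir) : Sc y (c + vec d) = Sc y c + vec (ro d) := by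
  cases d <;> ext <;> simp [Sc, vec, rt, cr, neg] <;> ring

theorem Si_add (y c : Z3) (d : Dir) : Si y (c + vec d) = Si y c + vec (ro d) := by
  cases d <;> ext <;> simp [Si, vec, rt, cr, neg] <;> ring

/-- the rotated gauge field -/
def rotG {G : Type} [Group G] (y : Z3) (g : Gauge G) : Gauge G where
  g1 := fun c => gst g (Sc y c) .xm
  g2 := fun c => gst g (Sc y c) .yp
  g3 := fun c => gst g (Sc y c) .zm

theorem gst_neg {G : Type} [Group G] (g : Gauge G) (c : Z3) (d : Dir) :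
    gst g (c + vec d) (neg d) = (gst g c d)⁻¹ := by
  cases d
  · show (g.g1 (c + (1, 0, 0) - (1, 0, 0)))⁻¹ = (g.g1 c)⁻¹
    rw [add_sub_cancel_right]
  · show g.g1 (c + (-1, 0, 0)) = ((g.g1 (c - (1, 0, 0)))⁻¹)⁻¹
    rw [inv_inv]
    congr 1
  · show (g.g2 (c + (0, 1, 0) - (0, 1, 0)))⁻¹ = (g.g2 c)⁻¹
    rw [add_sub_cancel_right]
  · show g.g2 (c + (0, -1, 0)) = ((g.g2 (c - (0, 1, 0)))⁻¹)⁻¹
    rw [inv_inv]
    congr 1
  · show (g.g3 (c + (0, 0, 1) - (0, 0, 1)))⁻¹ = (g.g3 c)⁻¹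
    rw [add_sub_cancel_right]
  · show g.g3 (c + (0, 0, -1)) = ((g.g3 (c - (0, 0, 1)))⁻¹)⁻¹
    rw [inv_inv]
    congr 1

theorem gst_rot {G : Type} [Group G] (y : Z3) (g : Gauge G) (c : Z3) (d : Dir) :
    gst (rotG y g) c d = gst g (Sc y c) (ro d) := by
  have key : ∀ d' : Dir, ∀ c' : Z3, (gst g (Sc y (c' - vec d')) (ro d'))⁻¹ =
      gst g (Sc y c') (neg (ro d')) := by
    intro d' c'
    have h := gst_neg g (Sc y (c' - vec d')) (ro d')
    rw [← Sc_add, sub_add_cancel] at h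
    exact h.symm
  cases d
  · rfl
  · exact key .xp c
  · rfl
  · exact key .yp c
  · rfl
  · exact key .zp c

theorem red_rot {G : Type} [Group G] {Z : Subgroup G} {y : Z3} {g : Gauge G}
    (h : Red Z (rotG y g)) : Red Z g := by
  obtain ⟨φ, hφ⟩ := h
  refine ⟨fun c => φ (Si y c), fun c d => ?_⟩
  have h1 := hφ (Si y c) (ro d)
  rw [gst_rot, Sc_Si, ro_ro, ← Si_add] at h1
  exact h1

/-- letters of the rotated word -/
theorem letter {A B X Y : List Dir} {f : Dir} (h0 : pos (A ++ B) = 0)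
    (h : A ++ B = X ++ f :: Y) : ∃ X' Y' : List Dir, B.map ro ++ A.map ro = X' ++ ro f :: Y' ∧
      pos Y' = rp (pos Y) - rp (pos B) := by
  rw [pos_append] at h0
  rcases K3YCON.split A B X Y f h with ⟨M, h1, h2⟩ | ⟨M, h1, h2⟩
  · refine ⟨B.map ro ++ X.map ro, M.map ro, ?_, ?_⟩
    · rw [h1]; simp
    · rw [pos_ro, h2, pos_append, rp_add, add_sub_cancel_right]
  · refine ⟨M.map ro, Y.map ro ++ A.map ro, ?_, ?_⟩
    · rw [h2]; simp
    · rw [pos_append, pos_ro, pos_ro]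
      have h3 : rp (pos A) + rp (pos B) = 0 := by
        rw [← rp_add, h0]; rfl
      rw [eq_neg_of_add_eq_zero_left h3]
      abel

theorem Eg_rot {A B : List Dir} (h0 : pos (A ++ B) = 0) {q : Z3} {f : Dir}
    (h : Eg (A ++ B) q f) : Eg (B.map ro ++ A.map ro) (rp q - rp (pos B)) (ro f) := by
  obtain ⟨X, Y, ⟨h1, h2⟩ | ⟨h1, h2⟩⟩ := h
  · obtain ⟨X', Y', h3, h4⟩ := letter h0 h1
    exact ⟨X', Y', Or.inl ⟨h3, by rw [h4, h2]⟩⟩
  · obtain ⟨X', Y', h3, h4⟩ := letter h0 h1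
    refine ⟨X', Y', Or.inr ⟨by rw [h3, ro_neg], ?_⟩⟩
    rw [h4, h2, rp_add, rp_vec]
    abel

theorem Eg_neg {w : List Dir} {q : Z3} {f : Dir} (h : Eg w q f) :
    Eg w (q + vec f) (neg f) := by
  have hn : neg (neg f) = f := by cases f <;> rfl
  obtain ⟨X, Y, ⟨h1, h2⟩ | ⟨h1, h2⟩⟩ := h
  · refine ⟨X, Y, Or.inr ⟨by rw [hn]; exact h1, ?_⟩⟩
    rw [h2, vec_neg]
    abel
  · exact ⟨X, Y, Or.inl ⟨h1, h2⟩⟩

/-- the rotated gauge field is flat outside the rotated polygon -/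
theorem gf_rot {G : Type} [Group G] {A B : List Dir} {y : Z3} (h0 : pos (A ++ B) = 0)
    (hB : pos B = y + (1, 0, 0)) {g : Gauge G} (h : GF g (A ++ B)) :
    GF (rotG y g) (B.map ro ++ A.map ro) := by
  intro q'
  refine ⟨?_, ?_, ?_⟩
  · -- the edge in direction `zp`
    set q : Z3 := (y.1 + 1 - q'.1, q'.2.1 + y.2.1, y.2.2 - q'.2.2 - 1) with hq
    rcases (h q).1 with he | hf
    · left
      have h1 := Eg_neg (Eg_rot h0 he)
      rw [hB] at h1
      have e1 : rp q - rp (y + (1, 0, 0)) + vec (ro .zp) = q' := by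
        rw [hq]; ext <;> simp [rp, vec, rt] <;> ring
      rw [e1] at h1
      exact h1
    · right
      unfold Fl12 at hf ⊢
      have a1 : Sc y (q' - (1, 1, 0)) - (1, 0, 0) = q - (1, 1, 0) := by
        rw [hq]; ext <;> simp [Sc] <;> ring
      have a2 : Sc y (q' - (0, 1, 0)) = q - (1, 1, 0) := by
        rw [hq]; ext <;> simp [Sc] <;> ring
      have a3 : Sc y (q' - (1, 1, 0)) = q - (0, 1, 0) := by
        rw [hq]; ext <;> simp [Sc] <;> ring
      have a4 : Sc y (q' - (1, 0, 0)) - (1, 0, 0) = q - (1, 0, 0) := by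
        rw [hq]; ext <;> simp [Sc] <;> ring
      show (g.g1 (Sc y (q' - (1, 1, 0)) - (1, 0, 0)))⁻¹ * g.g2 (Sc y (q' - (0, 1, 0))) =
        g.g2 (Sc y (q' - (1, 1, 0))) * (g.g1 (Sc y (q' - (1, 0, 0)) - (1, 0, 0)))⁻¹
      rw [a1, a2, a3, a4, inv_mul_eq_iff_eq_mul, ← mul_assoc, eq_mul_inv_iff_mul_eq]
      exact hf.symm
  · set q : Z3 := (y.1 + 1 - q'.1, q'.2.1 + y.2.1, y.2.2 - q'.2.2) with hq
    rcases (h q).2.1 with he | hf
    · left
      have h1 := Eg_rot h0 he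
      rw [hB] at h1
      have e1 : rp q - rp (y + (1, 0, 0)) = q' := by
        rw [hq]; ext <;> simp [rp] <;> ring
      rw [e1] at h1
      exact h1
    · right
      unfold Fl13 at hf ⊢
      have a1 : Sc y (q' - (1, 0, 1)) - (1, 0, 0) = q - (1, 0, 0) := by
        rw [hq]; ext <;> simp [Sc] <;> ring
      have a2 : Sc y (q' - (0, 0, 1)) - (0, 0, 1) = q - (1, 0, 1) := by
        rw [hq]; ext <;> simp [Sc] <;> ring
      have a3 : Sc y (q' - (1, 0, 1)) - (0, 0, 1) = q - (0, 0, 1) := by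
        rw [hq]; ext <;> simp [Sc] <;> ring
      have a4 : Sc y (q' - (1, 0, 0)) - (1, 0, 0) = q - (1, 0, 1) := by
        rw [hq]; ext <;> simp [Sc] <;> ring
      show (g.g1 (Sc y (q' - (1, 0, 1)) - (1, 0, 0)))⁻¹ *
          (g.g3 (Sc y (q' - (0, 0, 1)) - (0, 0, 1)))⁻¹ =
        (g.g3 (Sc y (q' - (1, 0, 1)) - (0, 0, 1)))⁻¹ *
          (g.g1 (Sc y (q' - (1, 0, 0)) - (1, 0, 0)))⁻¹
      rw [a1, a2, a3, a4, ← mul_inv_rev, ← mul_inv_rev, hf]
  · set q : Z3 := (y.1 - q'.1, q'.2.1 + y.2.1, y.2.2 - q'.2.2) with hq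
    rcases (h q).2.2 with he | hf
    · left
      have h1 := Eg_neg (Eg_rot h0 he)
      rw [hB] at h1
      have e1 : rp q - rp (y + (1, 0, 0)) + vec (ro .xp) = q' := by
        rw [hq]; ext <;> simp [rp, vec, rt] <;> ring
      rw [e1] at h1
      exact h1
    · right
      unfold Fl23 at hf ⊢
      have a1 : Sc y (q' - (0, 1, 1)) = q - (0, 1, 0) := by
        rw [hq]; ext <;> simp [Sc] <;> ring
      have a2 : Sc y (q' - (0, 0, 1)) - (0, 0, 1) = q - (0, 0, 1) := by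
        rw [hq]; ext <;> simp [Sc] <;> ring
      have a3 : q - (0, 1, 0) - (0, 0, 1) = q - (0, 1, 1) := by
        ext <;> simp
      have a4 : Sc y (q' - (0, 1, 0)) = q - (0, 1, 1) := by
        rw [hq]; ext <;> simp [Sc] <;> ring
      show g.g2 (Sc y (q' - (0, 1, 1))) * (g.g3 (Sc y (q' - (0, 0, 1)) - (0, 0, 1)))⁻¹ =
        (g.g3 (Sc y (q' - (0, 1, 1)) - (0, 0, 1)))⁻¹ * g.g2 (Sc y (q' - (0, 1, 0)))
      rw [a1, a2, a3, a4, eq_inv_mul_iff_mul_eq, ← mul_assoc, mul_inv_eq_iff_eq_mul]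
      exact hf.symm

end KNB
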