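import Pool.Agent.L5helper86.KB.Rot

/-!
# One more summand gives one more locally flat function
-/

set_option autoImplicit false

namespace KNB

open Finset Filter Topology KN
open scoped Classical

/-- the first component of a point on a walk below the polygon -/
theorem pos_mem (X Y : List Dir) : pos Y ∈ path (X ++ Y) := K3XNORM.pos_mem_path X Y

/-- the rotated connected sum is a connected sum in the other order -/
theorem facing_rot {l1 v l2 : List Dir} (hF : Facing l1 v l2) :
    Facing [] (l2.map ro ++ l1.map ro) (v.map ro) ∧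
    Same (vl (l1 ++ .zp :: l2)) (vl (.zm :: (l2.map ro ++ l1.map ro))) ∧
    Same (vl (join l1 v l2)) (vl (join [] (l2.map ro ++ l1.map ro) (v.map ro))) := by
  obtain ⟨h1, h2, h3, h4⟩ := hF
  have hp : perp .xm .zm := by decide
  have hposv : pos v = (0, 0, 1) := GL1.pos_v h3
  have r1 := T_rt_proof .xm .zm hp _ h1
  have r3 := T_rt_proof .xm .zm hp _ h3
  have hSJ : SAP (join l1 v l2) := S_glueSAP_proof l1 v l2 ⟨h1, h2, h3, h4⟩
  have rJ := T_rt_proof .xm .zm hp _ hSJ
  -- the left polygon
  have e1 : ((l1 ++ .zp :: l2).map ro).rotate l1.length = .zm :: (l2.map ro ++ l1.map ro) := by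
    have e : (l1 ++ .zp :: l2).map ro = l1.map ro ++ .zm :: l2.map ro := by
      rw [List.map_append, List.map_cons]
      rfl
    rw [e]
    have hl : l1.length = (l1.map ro).length := by simp
    rw [hl, List.rotate_append_length_eq]
    rfl
  have c1 := (c_words _ r1.1).2.2 l1.length
  rw [show (l1 ++ .zp :: l2).map (rt .xm .zm) = (l1 ++ .zp :: l2).map ro from rfl, e1] at c1
  -- the connected sum
  have eJ : ((join l1 v l2).map ro).rotate (l1.length + 1 + v.length) =
      join [] (l2.map ro ++ l1.map ro) (v.map ro) := by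
    have e : (join l1 v l2).map ro =
        (l1.map ro ++ .xp :: v.map ro) ++ (.xm :: l2.map ro) := by
      unfold KN.join
      simp only [List.map_append, List.map_cons, List.append_assoc, List.cons_append]
      rfl
    rw [e]
    have hl : l1.length + 1 + v.length = (l1.map ro ++ .xp :: v.map ro).length := by
      simp only [List.length_append, List.length_map, List.length_cons]
      omega
    rw [hl, List.rotate_append_length_eq]
    unfold KN.join
    simp
  have cJ := (c_words _ rJ.1).2.2 (l1.length + 1 + v.length)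
  rw [show (join l1 v l2).map (rt .xm .zm) = (join l1 v l2).map ro from rfl, eJ] at cJ
  have hpl : pos l1 = -(pos l2 + (0, 0, 1)) := by
    have h5 := h1.2.1
    rw [pos_append, pos] at h5
    exact eq_neg_of_add_eq_zero_left h5
  refine ⟨⟨?_, ?_, c1.1, ?_⟩, r1.2.trans c1.2, rJ.2.trans cJ.2⟩
  · exact r3.1
  · intro p hp
    have e : ([] : List Dir) ++ .zp :: v.map ro = (Dir.zm :: v).map ro := rfl
    rw [e, path_ro, List.mem_map] at hp
    obtain ⟨q, hq, rfl⟩ := hp
    rw [pos_ro, hposv]
    show -q.1 ≤ -0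
    rw [path, List.mem_cons] at hq
    rcases hq with rfl | hq
    · rw [hposv]; simp [vec]
    · have := h4 q hq
      omega
  · intro p hp
    rw [mem_path_iff] at hp
    obtain ⟨i, hi, rfl⟩ := hp
    rcases le_total i (l2.map ro).length with hi2 | hi2
    · rw [List.drop_append_of_le_length hi2, pos_append, ← List.map_drop, pos_ro, pos_ro, hpl]
      have h5 := h2 (pos (l2.drop i)) (by
        have e : l1 ++ .zp :: l2 = (l1 ++ .zp :: l2.take i) ++ l2.drop i := by
          simp
        rw [e]
        exact pos_mem _ _)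
      simp only [rp, Prod.fst_add, Prod.fst_neg]
      omega
    · rw [List.drop_append, List.drop_eq_nil_of_le hi2, List.nil_append, ← List.map_drop, pos_ro]
      have h5 := h2 (pos (l1.drop (i - (l2.map ro).length) ++ .zp :: l2)) (by
        have e : l1 ++ .zp :: l2 = l1.take (i - (l2.map ro).length) ++
            (l1.drop (i - (l2.map ro).length) ++ .zp :: l2) := by
          rw [← List.append_assoc, List.take_append_drop]
        rw [e]
        exact pos_mem _ _)
      rw [pos_append, pos] at h5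
      simp only [rp, vec, Prod.fst_add] at h5 ⊢
      omega

/-- the left part of the gauge field of a connected sum -/
theorem left_part {G : Type} [Group G] {g : Gauge G} {y : Z3} {m : List Dir} {c : Z3} {d : Dir}
    (h1 : c.1 ≤ y.1) (h2 : (c + vec d).1 ≤ y.1) :
    gst (kgauge g y m) c d ∈ Subgroup.zpowers (g.g2 (0, -1, 0)) := by
  have k2 : ∀ c : Z3, c.1 ≤ y.1 → (kgauge g y m).g2 c ∈ Subgroup.zpowers (g.g2 (0, -1, 0)) := by
    intro c hc
    show (if c.1 ≤ y.1 then _ else _) ∈ _
    rw [if_pos hc]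
    exact Subgroup.zpow_mem_zpowers _ _
  have k3 : ∀ c : Z3, c.1 ≤ y.1 → (kgauge g y m).g3 c ∈ Subgroup.zpowers (g.g2 (0, -1, 0)) := by
    intro c hc
    show (if c.1 ≤ y.1 then _ else _) ∈ _
    rw [if_pos hc]
    exact Subgroup.zpow_mem_zpowers _ _
  cases d
  · exact Subgroup.one_mem _
  · exact Subgroup.inv_mem _ (Subgroup.one_mem _)
  · exact k2 c h1
  · exact Subgroup.inv_mem _ (k2 _ (by simpa using h1))
  · exact k3 c h1
  · exact Subgroup.inv_mem _ (k3 _ (by simpa using h1))

/-- composition of gauge fields -/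
def snoc {G : Type} [Group G] {r : ℕ} (g : Gauge (Fin r → G)) (g' : Gauge G) :
    Gauge (Fin (r + 1) → G) where
  g1 := fun c => Fin.snoc (α := fun _ => G) (g.g1 c) (g'.g1 c)
  g2 := fun c => Fin.snoc (α := fun _ => G) (g.g2 c) (g'.g2 c)
  g3 := fun c => Fin.snoc (α := fun _ => G) (g.g3 c) (g'.g3 c)

theorem gst_snoc_last {G : Type} [Group G] {r : ℕ} (g : Gauge (Fin r → G)) (g' : Gauge G)
    (c : Z3) (d : Dir) : gst (snoc g g') c d (Fin.last r) = gst g' c d := by
  cases d <;> simp [gst, snoc]

theorem gst_snoc_cast {G : Type} [Group G] {r : ℕ} (g : Gauge (Fin r → G)) (g' : Gauge G)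
    (c : Z3) (d : Dir) (i : Fin r) : gst (snoc g g') c d i.castSucc = gst g c d i := by
  cases d <;> simp [gst, snoc]

theorem gf_snoc {G : Type} [Group G] {r : ℕ} {g : Gauge (Fin r → G)} {g' : Gauge G}
    {w : List Dir} (h : GF g w) (h' : GF g' w) : GF (snoc g g') w := by
  intro q
  obtain ⟨h1, h2, h3⟩ := h q
  obtain ⟨h1', h2', h3'⟩ := h' q
  refine ⟨?_, ?_, ?_⟩
  · by_cases he : Eg w q .zp
    · exact Or.inl he
    · right
      have a1 := h1.resolve_left he
      have a2 := h1'.resolve_left he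
      unfold Fl12 at a1 a2 ⊢
      funext j
      refine Fin.lastCases ?_ (fun i => ?_) j
      · simpa [snoc] using a2
      · simpa [snoc] using congrFun a1 i
  · by_cases he : Eg w q .yp
    · exact Or.inl he
    · right
      have a1 := h2.resolve_left he
      have a2 := h2'.resolve_left he
      unfold Fl13 at a1 a2 ⊢
      funext j
      refine Fin.lastCases ?_ (fun i => ?_) j
      · simpa [snoc] using a2
      · simpa [snoc] using congrFun a1 i
  · by_cases he : Eg w q .xp
    · exact Or.inl he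
    · right
      have a1 := h3.resolve_left he
      have a2 := h3'.resolve_left he
      unfold Fl23 at a1 a2 ⊢
      funext j
      refine Fin.lastCases ?_ (fun i => ?_) j
      · simpa [snoc] using a2
      · simpa [snoc] using congrFun a1 i

theorem kgauge_cmp {G : Type} [Group G] {r : ℕ} (g : Gauge (Fin r → G)) (i : Fin r) (y : Z3)
    (m : List Dir) (c : Z3) (d : Dir) :
    gst (kgauge (cmp g i) y m) c d = gst (kgauge g y m) c d i := by
  have k2 : ∀ c, (kgauge (cmp g i) y m).g2 c = (kgauge g y m).g2 c i := by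
    intro c
    show (if c.1 ≤ y.1 then _ else _) = (if c.1 ≤ y.1 then _ else _ : Fin r → G) i
    split_ifs
    · rfl
    · rfl
  have k3 : ∀ c, (kgauge (cmp g i) y m).g3 c = (kgauge g y m).g3 c i := by
    intro c
    show (if c.1 ≤ y.1 then _ else _) = (if c.1 ≤ y.1 then _ else _ : Fin r → G) i
    split_ifs
    · rfl
    · rfl
  cases d
  · rfl
  · rfl
  · exact k2 c
  · show ((kgauge (cmp g i) y m).g2 _)⁻¹ = ((kgauge g y m).g2 _ i)⁻¹
    rw [k2]
  · exact k3 c
  · show ((kgauge (cmp g i) y m).g3 _)⁻¹ = ((kgauge g y m).g3 _ i)⁻¹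
    rw [k3]

/-- one more summand -/
theorem num_succ {G : Type} [Group G] {r : ℕ} {l1 v l2 : List Dir} (hF : Facing l1 v l2)
    (hL : Num G r (vl (l1 ++ .zp :: l2)))
    (hR : ∃ T : V → V → G, Flat (ps (vl (.zm :: v)))ᶜ T ∧
      ∀ κ, ¬ RedOn (Subgroup.zpowers κ) (ps (vl (.zm :: v)))ᶜ T) :
    Num G (r + 1) (vl (join l1 v l2)) := by
  obtain ⟨hF', hs1, hsJ⟩ := facing_rot hF
  refine num_same hsJ.symm (num_of (S_glueSAP_proof _ _ _ hF') ?_)
  -- the field on the right polygon
  obtain ⟨T, hT, hTn⟩ := hR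
  obtain ⟨g0, hg0, hZ0⟩ := disc hF.2.2.1 hT
  obtain ⟨gR, hgR, hR1, hR2, hRZ⟩ := norm g0 v hF.2.2.2 hg0
  have hRn : ∀ κ, ¬ Red (Subgroup.zpowers κ) gR := fun κ h => hTn κ (hZ0 _ (hRZ _ h))
  -- the field on the left polygon
  obtain ⟨g0', hg0', hd0, hc0⟩ := numD_of hF'.2.2.1 (num_same hs1 hL)
  obtain ⟨gL, hgL, hL1, hL2, hLZ⟩ := norm g0' _ hF'.2.2.2 hg0'
  have hLd : ∀ i j : Fin r, i ≠ j → ¬ Red (dia G i j) gL := fun i j hij h =>
    hd0 i j hij (hLZ _ h)
  have hLc : ∀ (i : Fin r) (κ : G), ¬ Red (cyl G i κ) gL := fun i κ h => hc0 i κ (hLZ _ h)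
  -- the fields on the connected sum
  set KL := kgauge gL (pos (v.map ro)) ([] ++ .xm :: .zp :: .xp :: v.map ro) with hKL
  have hKLf : GF KL (join [] (l2.map ro ++ l1.map ro) (v.map ro)) :=
    e_kflat _ gL _ _ _ hF' hgL hL1 hL2
  set KR := kgauge gR (pos l2) (l1 ++ .xm :: .zp :: .xp :: l2) with hKR
  have hKRf : GF KR (join l1 v l2) := e_kflat _ gR _ _ _ hF hgR hR1 hR2
  have hJ0 : pos (join l1 v l2) = 0 := (S_glueSAP_proof l1 v l2 hF).2.1
  have eJ : join l1 v l2 = (l1 ++ .xm :: v) ++ .xp :: l2 := by unfold KN.join; simp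
  have hKR' : GF (rotG (pos l2) KR) (join [] (l2.map ro ++ l1.map ro) (v.map ro)) := by
    rw [eJ] at hKRf hJ0
    have h := gf_rot (y := pos l2) hJ0 (by simp [pos, vec]) hKRf
    have e : (Dir.xp :: l2).map ro ++ (l1 ++ .xm :: v).map ro =
        join [] (l2.map ro ++ l1.map ro) (v.map ro) := by
      unfold KN.join
      simp only [List.map_append, List.map_cons, List.append_assoc, List.cons_append,
        List.nil_append]
      rfl
    rwa [e] at h
  set KR' := rotG (pos l2) KR with hKR'd
  have hypos : (pos (v.map ro)).1 = 0 := by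
    rw [pos_ro, GL1.pos_v hF.2.2.1]
    rfl
  -- the right field is cyclic on the other half
  have hcy : ∀ (c : Z3) (d : Dir), 0 ≤ c.1 → 0 ≤ (c + vec d).1 →
      gst KR' c d ∈ Subgroup.zpowers (gR.g2 (0, -1, 0)) := by
    intro c d h1 h2
    rw [hKR'd, gst_rot]
    apply left_part
    · show (pos l2).1 - c.1 ≤ (pos l2).1
      omega
    · rw [← Sc_add]
      show (pos l2).1 - (c + vec d).1 ≤ (pos l2).1
      omega
  have key : ∀ i : Fin r, ¬ Red (dia G i.castSucc (Fin.last r)) (snoc KL KR') := by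
    rintro i ⟨φ, hφ⟩
    have h3 : Red (Subgroup.zpowers (gR.g2 (0, -1, 0))) (cmp gL i) := by
      refine half (g := cmp gL i) hF' (fun c => congrFun (hL1 c) i)
        (fun c hc => ⟨congrFun (hL2 c hc).1 i, congrFun (hL2 c hc).2 i⟩)
        (fun c => (φ c (Fin.last r))⁻¹ * φ c i.castSucc) ?_
      intro c d h1 h2
      rw [hypos] at h1 h2
      have h4 := hφ c d
      rw [mem_dia] at h4
      have h5 : φ c i.castSucc * gst KL c d i * (φ (c + vec d) i.castSucc)⁻¹ =
          φ c (Fin.last r) * gst KR' c d * (φ (c + vec d) (Fin.last r))⁻¹ := by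
        have h6 := h4
        simp only [Pi.mul_apply, Pi.inv_apply, gst_snoc_cast, gst_snoc_last] at h6
        exact h6
      rw [kgauge_cmp]
      have h7 : (φ c (Fin.last r))⁻¹ * φ c i.castSucc * gst KL c d i *
          ((φ (c + vec d) (Fin.last r))⁻¹ * φ (c + vec d) i.castSucc)⁻¹ = gst KR' c d := by
        calc (φ c (Fin.last r))⁻¹ * φ c i.castSucc * gst KL c d i *
              ((φ (c + vec d) (Fin.last r))⁻¹ * φ (c + vec d) i.castSucc)⁻¹
            = (φ c (Fin.last r))⁻¹ * (φ c i.castSucc * gst KL c d i *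
              (φ (c + vec d) i.castSucc)⁻¹) * φ (c + vec d) (Fin.last r) := by group
          _ = _ := by rw [h5]; group
      rw [h7]
      exact hcy c d h1 h2
    apply hLc i (gR.g2 (0, -1, 0))
    obtain ⟨ψ, hψ⟩ := h3
    refine ⟨fun c _ => ψ c, fun c d => ?_⟩
    rw [mem_cyl]
    have := hψ c d
    rw [gst_cmp] at this
    exact this
  refine ⟨snoc KL KR', gf_snoc hKLf hKR', ?_, ?_⟩
  · intro i j
    refine Fin.lastCases ?_ (fun i => ?_) i
    · refine Fin.lastCases ?_ (fun j => ?_) j
      · intro h; exact absurd rfl h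
      · rintro - ⟨φ, hφ⟩
        exact key j ⟨φ, fun c d => (hφ c d).symm⟩
    · refine Fin.lastCases ?_ (fun j => ?_) j
      · intro _; exact key i
      · rintro hij ⟨φ, hφ⟩
        have hij' : i ≠ j := fun h => hij (by rw [h])
        apply hLd i j hij'
        apply kred hF' hL1 hL2
        refine ⟨fun c i => φ c i.castSucc, fun c d => ?_⟩
        have h4 := hφ c d
        rw [mem_dia] at h4 ⊢
        simp only [Pi.mul_apply, Pi.inv_apply, gst_snoc_cast] at h4
        exact h4
  · intro i κ
    refine Fin.lastCases ?_ (fun i => ?_) i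
    · rintro ⟨φ, hφ⟩
      apply hRn κ
      apply kred hF hR1 hR2
      apply red_rot (y := pos l2)
      refine ⟨fun c => φ c (Fin.last r), fun c d => ?_⟩
      have h4 := hφ c d
      rw [mem_cyl] at h4
      simp only [Pi.mul_apply, Pi.inv_apply, gst_snoc_last] at h4
      exact h4
    · rintro ⟨φ, hφ⟩
      apply hLc i κ
      apply kred hF' hL1 hL2
      refine ⟨fun c i => φ c i.castSucc, fun c d => ?_⟩
      have h4 := hφ c d
      rw [mem_cyl] at h4 ⊢
      simp only [Pi.mul_apply, Pi.inv_apply, gst_snoc_cast] at h4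
      exact h4

end KNB
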