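import Pool.Agent.L5helper86.KB.Quot

/-!
# The group of the trefoil has a finite non-commutative quotient
-/

set_option autoImplicit false

namespace KNB

open Set Filter Topology KN K2NONAB K3XGRP

theorem exists_tr {G : Type} [Group G] {l : List V} {T : V → V → G} (hT : Flat (ps l)ᶜ T)
    {x y : Cmp l} (p : Path x y) : ∃ v, Tr T p v := by
  obtain ⟨u, h0, hu⟩ := T_lift_proof G (ps l)ᶜ T hT (fun t => (p.extend t).1)
    (continuous_subtype_val.comp p.continuous_extend) (fun t _ _ => (p.extend t).2)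
  exact ⟨u 1, u, h0, rfl, hu⟩

theorem tr_unique {G : Type} [Group G] {l : List V} {T : V → V → G} (hT : Flat (ps l)ᶜ T)
    {x y : Cmp l} {p p' : Path x y} (h : p.Homotopic p') {v v' : G} (hv : Tr T p v)
    (hv' : Tr T p' v') : v = v' := by
  obtain ⟨u, u0, u1, hu⟩ := hv
  obtain ⟨u', u0', u1', hu'⟩ := hv'
  have := e_homot G l T hT x y p p' h u u' u0 u0' hu hu'
  rw [← u1, ← u1', this]

/-- non-commuting holonomies in a finite group -/
theorem fq_gauge {G : Type} [Group G] [Finite G] {g : Gauge G} {w : List Dir} (hw : SAP w)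
    (hg : GF g w) {c : Z3} {A B : List Dir} (hA : pos A = 0) (hB : pos B = 0)
    (hne : hol g c A * hol g c B ≠ hol g c B * hol g c A) : FQ (vl w) := by
  have hT := d_gauge G g w hw hg
  have key : ∀ z : FundamentalGroup (Cmp (vl w)) (mc w hw c), ∃ v : G,
      ∀ p : Path (mc w hw c) (mc w hw c),
        FundamentalGroup.fromPath (Path.Homotopic.Quotient.mk p) = z → Tr (TT g) p v := by
    intro z
    obtain ⟨p0, hp0⟩ := Path.Homotopic.Quotient.mk_surjective z
    obtain ⟨v, hv⟩ := exists_tr hT p0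
    refine ⟨v, fun p hp => ?_⟩
    obtain ⟨v', hv'⟩ := exists_tr hT p
    have h1 : Path.Homotopic.Quotient.mk p = Path.Homotopic.Quotient.mk p0 := hp.trans hp0.symm
    have h2 : p.Homotopic p0 := Path.Homotopic.Quotient.exact h1
    rw [← tr_unique hT h2 hv' hv]
    exact hv'
  choose F hF using key
  let f : FundamentalGroup (Cmp (vl w)) (mc w hw c) →* G := MonoidHom.mk' (fun z => (F z)⁻¹) (by
    intro z z'
    obtain ⟨p, rfl⟩ := Path.Homotopic.Quotient.mk_surjective z
    obtain ⟨q, rfl⟩ := Path.Homotopic.Quotient.mk_surjective z'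
    have h1 := hF _ p rfl
    have h2 := hF _ q rfl
    have h3 := hF _ (q.trans p) rfl
    have h4 := tr_unique hT (Path.Homotopic.refl _) h3 (tr_trans h2 h1)
    rw [← mul_inv_rev, ← h4]
    rfl)
  obtain ⟨p, hp⟩ := loop g w hw c A hA
  obtain ⟨q, hq⟩ := loop g w hw c B hB
  refine ⟨mc w hw c, G, inferInstance, inferInstance, f,
    FundamentalGroup.fromPath (Path.Homotopic.Quotient.mk p),
    FundamentalGroup.fromPath (Path.Homotopic.Quotient.mk q), fun h => hne ?_⟩
  have e1 : F (FundamentalGroup.fromPath (Path.Homotopic.Quotient.mk p)) = hol g c A :=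
    tr_unique hT (Path.Homotopic.refl _) (hF _ p rfl) hp
  have e2 : F (FundamentalGroup.fromPath (Path.Homotopic.Quotient.mk q)) = hol g c B :=
    tr_unique hT (Path.Homotopic.refl _) (hF _ q rfl) hq
  have h' : (F (FundamentalGroup.fromPath (Path.Homotopic.Quotient.mk p)))⁻¹ *
      (F (FundamentalGroup.fromPath (Path.Homotopic.Quotient.mk q)))⁻¹ =
      (F (FundamentalGroup.fromPath (Path.Homotopic.Quotient.mk q)))⁻¹ *
      (F (FundamentalGroup.fromPath (Path.Homotopic.Quotient.mk p)))⁻¹ := h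
  rw [e1, e2, ← mul_inv_rev, ← mul_inv_rev] at h'
  exact (inv_injective h').symm

/-- the trefoil -/
theorem fq_tre : FQ tre := by
  refine fq_gauge (g := tgauge) K3XTRE.sap_tre T_tflat_proof.1 (c := (0, -1, -1))
    (A := [.ym, .zm, .yp, .zp])
    (B := [.xm, .xm, .ym, .ym, .ym, .zm, .yp, .zp, .yp, .yp, .xp, .xp]) (by decide) (by decide) ?_
  simp [hol, gst, tgauge, pos, vec, tel, tcov, trow]
  decide

end KNB
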