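import Pool.Agent.L5helper86.KB.Count
import Pool.Agent.H246KN.All

/-!
# Lattice knots: the knot type of a polygon with several local knots, adapted from
`Pool/Agent/H246K3`
-/

set_option autoImplicit false

namespace KNB

open Finset Filter Topology KN
open scoped Classical

noncomputable section

open K3YTYPE in
/-- a block can be replaced by its letter -/
theorem val_drop {k : List V} {T L Bd : ℕ} {v : ℕ → List Dir}
    (hv : SmB L Bd v) {A B : List Sz} {i : ℕ} (h : VaQ k T L v (A ++ .bl i .xp .zp :: B)) :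
    VaQ k T L v (A ++ .lt .zp :: B) := by
  have hWbas := e_bas
  have hWrep := T_Wrep_proof
  have hI := pos_blk T (hv i).1.1
  have hBZ : BZ (A ++ .lt .zp :: B) = BZ (A ++ .bl i .xp .zp :: B) := by
    unfold BZ
    rw [List.map_append, List.map_append]
    rfl
  refine ⟨?_, ?_, ?_, ?_⟩
  · rw [hBZ]; exact h.u
  · rw [hBZ]; exact h.base
  · have h1 := (hWrep (EZ T v A) (EZ T v B) (blk T (v i)) .zp hI (blk_ne T (v i))).2
    rw [EZ_lt]
    refine h1 ?_ ?_
    · rw [← EZ_bl]; exact h.ext
    · have h2 := (hWbas T L Bd v hv (A ++ .lt .zp :: B)).2.2.1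
      rw [EZ_lt] at h2
      rw [h2]
      have h3 := h.base.1
      rw [← hBZ] at h3
      unfold BZ at h3
      rw [List.length_map] at h3
      omega
  · intro A' B' i' d' f' he
    rcases List.append_eq_append_iff.1 he with ⟨C, hC1, hC2⟩ | ⟨C, hC1, hC2⟩
    · -- `A' = A ++ C`, `lt zp :: B = C ++ bl :: B'`
      cases C with
      | nil =>
        rw [List.nil_append, List.cons.injEq] at hC2
        exact absurd hC2.1 (by simp)
      | cons s C =>
        rw [List.cons_append, List.cons.injEq] at hC2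
        obtain ⟨rfl, rfl⟩ := hC2
        subst hC1
        have h1 := h.room (A ++ .bl i .xp .zp :: C) B' i' d' f' (by simp)
        refine ⟨h1.1, RmD_mono h1.2 ?_⟩
        intro p hp
        rw [EZ_lt] at hp
        rw [EZ_bl]
        have h2 := (hWrep (EZ T v A) (EZ T v C ++ f' :: EZ T v B') (blk T (v i)) .zp hI
          (blk_ne T (v i))).1 p
        simp only [List.append_assoc, List.cons_append] at hp h2 ⊢
        exact h2 hp
    · -- `A = A' ++ C`, `bl :: B' = C ++ lt zp :: B`
      cases C with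
      | nil =>
        rw [List.nil_append, List.cons.injEq] at hC2
        exact absurd hC2.1 (by simp)
      | cons s C =>
        rw [List.cons_append, List.cons.injEq] at hC2
        obtain ⟨rfl, rfl⟩ := hC2
        subst hC1
        have h1 := h.room A' (C ++ .bl i .xp .zp :: B) i' d' f' (by simp)
        have hp1 : pos (EZ T v (C ++ .bl i .xp .zp :: B)) = pos (EZ T v (C ++ .lt .zp :: B)) := by
          rw [EZ_bl, EZ_lt, pos_append, pos_append, pos_append, hI]
          change _ = pos (EZ T v C) + (pos (EZ T v B) + vec .zp)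
          abel
        rw [hp1] at h1
        refine ⟨h1.1, RmD_mono h1.2 ?_⟩
        intro p hp
        rw [EZ_lt] at hp
        rw [EZ_bl]
        have h2 := (hWrep (EZ T v A' ++ f' :: EZ T v C) (EZ T v B) (blk T (v i)) .zp hI
          (blk_ne T (v i))).1 p
        simp only [List.append_assoc, List.cons_append] at hp h2 ⊢
        exact h2 hp

open K3YTYPE in
theorem spot_of {k : List V} {T L : ℕ} {v : ℕ → List Dir} {A B : List Sz} {i : ℕ}
    (h : VaQ k T L v (A ++ .bl i .xp .zp :: B)) (h' : VaQ k T L v (A ++ .lt .zp :: B)) :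
    Spot T L (EZ T v A) (EZ T v B) := by
  have h1 := (h.room A B i .xp .zp rfl).2
  have h2 := h'.ext
  rw [EZ_lt] at h2
  refine ⟨h2, fun j g1 g2 => ?_, fun x g1 g2 g3 g4 g5 => ?_⟩
  · have := h1.1 j g1 g2
    rwa [Rp_id, Rp_id] at this
  · have := h1.2 x g1 g2 g3 g4 g5
    rwa [Rp_id] at this

theorem sumQ_same {k : List V} {ks : ℕ → List V} {N : ℕ} {l l' : List V} (h : SumQ k ks N l)
    (hs : Same l l') : SumQ k ks N l' := by
  cases N with
  | zero => exact hs.symm.trans h
  | succ N =>
    obtain ⟨l1, v, l2, hF, ht, hk, hl⟩ := h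
    exact ⟨l1, v, l2, hF, ht, hk, hs.symm.trans hl⟩

open K3YTYPE in
/-- the knot type of a word with blocks -/
theorem typ {k : List V} {ks : ℕ → List V} {T L Bd : ℕ} {v : ℕ → List Dir} (hv : SmB L Bd v)
    (N : ℕ) : (∀ i < N, Same (vl (.zm :: v i)) (ks i)) → ∀ W : List Sz,
    (lab W).Perm (List.range N) → VaQ k T L v W → SumQ k ks N (vl (EZ T v W)) := by
  have hmaster := d_master
  have hYbas := e_bas
  have hrtc := T_rtc_proof
  have hrt := T_rt_proof
  induction N with
  | zero =>
    intro _ W hW hval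
    change Same (vl (EZ T v W)) k
    rw [EZ_nil W (List.perm_nil.1 hW)]
    exact hval.u
  | succ N ih =>
    intro hk W hW hval
    have ih := ih (fun i hi => hk i (Nat.lt_succ_of_lt hi))
    have hmem : N ∈ lab W := hW.mem_iff.2 (List.mem_range.2 (Nat.lt_succ_self N))
    obtain ⟨A, B, d, f, rfl⟩ := mem_lab W hmem
    have hperp : ∀ A' B' i' d' f', A ++ .bl N d f :: B = A' ++ .bl i' d' f' :: B' → perp d' f' :=
      fun A' B' i' d' f' he => (hval.room A' B' i' d' f' he).1
    have hdf : perp d f := hperp A B N d f rfl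
    obtain ⟨⟨d', f', hp', hd', hf', -, -, -, -⟩, -, -, -⟩ := hrtc d f hdf
    have hb := (hYbas T L Bd v hv (A ++ .bl N d f :: B)).2.2.2.2 d' f' hp' hperp
    have hval' := rot hv hval hp'
    have hsame := (hrt d' f' hp' _ hval.ext).2
    rw [hb.1] at hsame
    refine sumQ_same ?_ hsame.symm
    have hmap : (A ++ .bl N d f :: B).map (rZ d' f') =
        A.map (rZ d' f') ++ .bl N .xp .zp :: B.map (rZ d' f') := by
      rw [List.map_append, List.map_cons]
      change _ ++ Sz.bl N (rt d' f' d) (rt d' f' f) :: _ = _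
      rw [hd', hf']
    have hn : (lab ((A ++ .bl N d f :: B).map (rZ d' f'))).Perm (List.range (N + 1)) := by
      rw [hb.2.2]
      exact hW
    rw [hmap] at hval' hn ⊢
    set A1 := A.map (rZ d' f')
    set B1 := B.map (rZ d' f')
    have hval1 := val_drop hv hval'
    have hn1 : (lab (A1 ++ .lt .zp :: B1)).Perm (List.range N) := by
      rw [lab_append, lab_lt]
      rw [lab_append, lab_bl, List.range_succ] at hn
      have h1 : (N :: (lab A1 ++ lab B1)).Perm (N :: List.range N) :=
        (List.perm_middle.symm.trans hn).trans (List.perm_append_singleton N (List.range N))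
      exact h1.cons_inv
    have hT := ih _ hn1 hval1
    obtain ⟨m1, m2, hm, hmx, hms⟩ := rep_R hval1.ext
    have hspot := spot_of hval' hval1
    have hms' : Same (vl (EZ T v A1 ++ .zp :: EZ T v B1)) (vl (m1 ++ .zp :: m2)) := by
      rw [← EZ_lt]
      exact hms.symm
    have hM := (hmaster T L (EZ T v A1) (EZ T v B1) m1 m2 (v N) hspot (hv N).1 (bgL L hm hmx)
      hms').2
    rw [← EZ_bl] at hM
    exact ⟨m1, v N, m2, ⟨hm, hmx, (hv N).1.1, fun p hp => ((hv N).1.2 p hp).1⟩,
      sumQ_same hT hms.symm, hk N (Nat.lt_succ_self N), hM⟩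

open K2TOWU in
/-- uniqueness -/
theorem sumu {k : List V} {ks : ℕ → List V} (N : ℕ) : ∀ l l' : List V, SumQ k ks N l →
    SumQ k ks N l' → Same l l' := by
  have hW := d_wconL
  induction N with
  | zero =>
    intro l l' h h'
    exact Same.trans h (Same.symm h')
  | succ N ih =>
    rintro l l' ⟨l1, v, l2, hF, ht, hk, hl⟩ ⟨m1, v', m2, hF', ht', hk', hl'⟩
    have h1 := ih _ _ ht ht'
    have h2 : Same (vl (.zm :: v)) (vl (.zm :: v')) := hk.trans hk'.symm
    have hFm : Facing l1 v' l2 := ⟨hF.1, hF.2.1, hF'.2.2.1, hF'.2.2.2⟩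
    have h3 := join_same hF hFm h2
    have h4 := hW v'.length l1 l2 m1 m2 v' (bgL _ hF.1 hF.2.1) (bgL _ hF'.1 hF'.2.1)
      (smR hF'.2.2.1 hF'.2.2.2) h1
    exact hl.trans ((h3.trans h4).trans hl'.symm)

open K3YSUME (rep_R) in
/-- existence -/
theorem sume {k : List V} {ks : ℕ → List V} (hk : ∃ w, SAP w ∧ Same (vl w) k) (N : ℕ) :
    (∀ i < N, ∃ w, SAP w ∧ Same (vl w) (ks i)) → ∃ w, SAP w ∧ SumQ k ks N (vl w) := by
  have hvex := T_vex_proof
  induction N with
  | zero => intro _; exact hk
  | succ N ih =>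
    intro h
    obtain ⟨w, hw, ht⟩ := ih (fun i hi => h i (Nat.lt_succ_of_lt hi))
    obtain ⟨l1, l2, h1, h2, h3⟩ := rep_R hw
    obtain ⟨L, v, hv, hvk⟩ := hvex (ks N) (h N (Nat.lt_succ_self N))
    have hF : Facing l1 v l2 := ⟨h1, h2, hv.1, fun p hp => (hv.2 p hp).1⟩
    refine ⟨join l1 v l2, S_glueSAP_proof l1 v l2 hF, l1, v, l2, hF, sumQ_same ht h3.symm, hvk,
      Same.refl _⟩

end

end KNB
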